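import Pool.Agent.U79.MO.SHT

/-!
# Project GDM (helper79): all the twists by the divisors of `M` have the same corank
-/

set_option autoImplicit false

open scoped Classical
open Finset Filter WeierstrassCurve

namespace Pool.Agent.U79.MO

open Pool.Agent.U115.GD (ck)
open Pool.Agent.U115.GE (Class cork twE Res Split RtG thetaG spl ine)
open Pool.Agent.TH841.NF.D (rk Sha)
open Pool.Agent.U79.TF (sr)

variable {a b m M : ℤ}

/-- `m` is a square modulo the split primes -/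
theorem sq_mod {p : ℕ} [Fact p.Prime] (h : m ∣ M) (hp : Res (a * M) (b * M ^ 2) p) :
    IsSquare (m : ZMod p) ∧ (m : ZMod p) ≠ 0 := by
  have h1 : Split 0 m p := by
    refine ⟨Fact.out, hp.1, fun l hl h2 hlm => hp.2 l hl h2 ?_⟩
    have hpi : Prime (l : ℤ) := Nat.prime_iff_prime_int.1 hl
    have h3 : (l : ℤ) ∣ m := by
      have e : m * (0 ^ 2 - 4 * m) = -(2 ^ 2 * m ^ 2) := by ring
      rw [e, dvd_neg] at hlm
      rcases hpi.dvd_or_dvd hlm with h4 | h4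
      · exfalso
        have h5 := hpi.dvd_of_dvd_pow h4
        have h6 : l ∣ 2 := by exact_mod_cast h5
        exact h2 ((Nat.prime_dvd_prime_iff_eq hl Nat.prime_two).1 h6)
      · exact hpi.dvd_of_dvd_pow h4
    exact (((h3.trans h).trans (dvd_pow_self M two_ne_zero)).mul_left b).mul_right _
  obtain ⟨h2, h3, -, -⟩ := Pool.Agent.U115.GE.split_b h1
  exact ⟨h2, h3⟩

theorem theta_eq {p : ℕ} (hpp : p.Prime) (h : m ∣ M) (hp : Res (a * M) (b * M ^ 2) p) :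
    thetaG (a * m) (b * m ^ 2) p = thetaG a b p := by
  have := Fact.mk hpp
  obtain ⟨⟨t, ht⟩, h0⟩ := sq_mod (a := a) (b := b) h hp
  have ht0 : t ≠ 0 := by
    rintro rfl
    rw [mul_zero] at ht
    exact h0 ht
  have key : RtG (a * m) (b * m ^ 2) p 1 ↔ RtG a b p 1 := by
    constructor
    · rintro h1 x hx ⟨u, hu⟩
      refine h1 ((m : ZMod p) * x) ?_ ⟨t * u, ?_⟩
      · push_cast at hx ⊢
        linear_combination (m : ZMod p) ^ 2 * hx
      · rw [ht, hu]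
        ring
    · rintro h1 x hx ⟨u, hu⟩
      refine h1 (x / (m : ZMod p)) ?_ ⟨u / t, ?_⟩
      · push_cast at hx ⊢
        field_simp
        linear_combination hx
      · rw [ht, hu, div_mul_div_comm]
  unfold thetaG
  exact if_congr key rfl rfl

theorem matF_congr {f g : ℕ → ZMod 2} {Q P : Finset ℕ} (h : ∀ i ∈ P, f i = g i) :
    Pool.Agent.U115.XP.matF f Q P = Pool.Agent.U115.XP.matF g Q P := by
  ext i j
  unfold Pool.Agent.U115.XP.matF
  simp only [Matrix.of_apply]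
  rw [h i i.2]

/-- **all the twists by the divisors of `M` have the same corank** -/
theorem cork_m (h : m ∣ M) {D : ℕ} (hD : Class (a * M) (b * M ^ 2) D) :
    cork (a * m) (b * m ^ 2) D = cork a b D := by
  have e1 : ∀ {m : ℤ}, m ∣ M → cork (a * m) (b * m ^ 2) D = (spl (a * M) (b * M ^ 2) D).card -
      (Pool.Agent.U115.XP.matF (thetaG a b) (ine (a * M) (b * M ^ 2) D)
        (spl (a * M) (b * M ^ 2) D)).rank := by
    intro m h
    rw [Pool.Agent.U79.TF.cork_matF, Pool.Agent.U79.TF.spl_eq h hD, Pool.Agent.U79.TF.ine_eq h hD,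
      matF_congr (g := thetaG a b) fun i hi => ?_]
    have hi := Finset.mem_filter.1 hi
    exact theta_eq (Nat.prime_of_mem_primeFactors hi.1) h hi.2
  have e2 := e1 (m := 1) (one_dvd M)
  rw [mul_one, one_pow, mul_one] at e2
  rw [e1 h, e2]

/-- the mean over the class for `M` -/
theorem phi_class' (nb : ¬ IsSquare b) (nc : ¬ IsSquare (a ^ 2 - 4 * b)) (hM : M ≠ 0)
    {φ : ℕ → ℝ} {B : ℝ} {n : ℕ} (hφ : ∀ k : ℕ, 1 ≤ k → |φ k| ≤ B * (k : ℝ) ^ n) :
    (Summable fun k : ℕ => φ k * ck k) ∧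
    Tendsto (fun X : ℕ => mean (CX (a * M) (b * M ^ 2) X) fun D =>
      φ (cork a b D)) atTop (nhds (∑' k : ℕ, φ k * ck k)) := by
  have h := phi_class (m := 1) nb nc hM (one_dvd M) hφ
  rwa [mul_one, one_pow, mul_one] at h

/-- the rank over `K` -/
theorem rank_K2 (hb : b ≠ 0) (hc : a ^ 2 - 4 * b ≠ 0) {S : Finset ℤ} (hS : ∀ q ∈ S, q ≠ 0)
    (K : Type) [Field K] [NumberField K] (r : ℤ → K) (hr : ∀ d ∈ S, r d ^ 2 = (d : K))
    (hK : IntermediateField.adjoin ℚ (r '' (S : Set ℤ)) = ⊤) {D : ℕ}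
    (hD : Class (a * ∏ q ∈ S, q) (b * (∏ q ∈ S, q) ^ 2) D) :
    Pool.Agent.U79.TF.RK a b K D ≤ ∑ T ∈ S.powerset, sr (a * ∏ q ∈ T, q) (b * (∏ q ∈ T, q) ^ 2) +
      2 ^ (S.card + 1) * cork a b D := by
  refine (Pool.Agent.U79.TF.rank_K hb hc hS K r hr hK hD).trans (le_of_eq ?_)
  rw [Finset.sum_add_distrib]
  congr 1
  rw [Finset.sum_congr rfl (g := fun _ => 2 * cork a b D) fun T hT => ?_, Finset.sum_const,
    Finset.card_powerset, smul_eq_mul]
  · ring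
  · rw [cork_m (Finset.prod_dvd_prod_of_subset T S _ (Finset.mem_powerset.1 hT)) hD]

/-- the bounds for the twist by a divisor `m` of `M` -/
theorem two_sided_m (nb : ¬ IsSquare b) (nc : ¬ IsSquare (a ^ 2 - 4 * b)) (hM : M ≠ 0) (h : m ∣ M)
    {D : ℕ} (hD : Class (a * M) (b * M ^ 2) D) :
    Finite {x : Sha (twE (a * m) (b * m ^ 2) D) // 2 • x = 0} ∧
    cork a b D ≤ rk (twE (a * m) (b * m ^ 2) D) + ds (twE (a * m) (b * m ^ 2) D) ∧
    rk (twE (a * m) (b * m ^ 2) D) + ds (twE (a * m) (b * m ^ 2) D) ≤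
      sr (a * m) (b * m ^ 2) + 2 * cork a b D ∧
    (sr (a * m) (b * m ^ 2) = 0 → ((Finite (twE (a * m) (b * m ^ 2) D).toAffine.Point ∧
      ∀ (n : ℕ) (x : Sha (twE (a * m) (b * m ^ 2) D)), 2 ^ n • x = 0 → x = 0) ↔
      cork a b D = 0)) := by
  have hb : b ≠ 0 := by
    rintro rfl
    exact nb ⟨0, by norm_num⟩
  have hc : a ^ 2 - 4 * b ≠ 0 := by
    intro h
    exact nc ⟨0, by rw [h]; norm_num⟩
  have hm : m ≠ 0 := by
    rintro rfl
    exact hM (zero_dvd_iff.1 h)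
  obtain ⟨g1, g2⟩ := Pool.Agent.U79.TF.gc_ne hb hc hm
  have nb' : ¬ IsSquare (b * m ^ 2) := fun h => nb (Pool.Agent.U79.TF.sq_cancel hm h)
  have nc' : ¬ IsSquare ((a * m) ^ 2 - 4 * (b * m ^ 2)) := by
    intro h
    refine nc (Pool.Agent.U79.TF.sq_cancel hm ?_)
    have e : (a ^ 2 - 4 * b) * m ^ 2 = (a * m) ^ 2 - 4 * (b * m ^ 2) := by ring
    rw [e]
    exact h
  have hD' := Pool.Agent.U79.TF.class_sub h hD
  obtain ⟨t1, t2, t3⟩ := two_sided g1 g2 nb' nc' hD'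
  rw [cork_m h hD] at t2 t3
  refine ⟨t1, t2, t3, fun h0 => ?_⟩
  have h4 : Pool.Agent.U115.GE.sel (a * m) (b * m ^ 2) *
      Pool.Agent.U115.GE.sel (-2 * (a * m)) ((a * m) ^ 2 - 4 * (b * m ^ 2)) = 4 := by
    have h5 := Pool.Agent.U79.TF.sel2_pow g1 g2
    rw [h0] at h5
    exact h5
  have h1 := (Pool.Agent.U115.GE.class_hg g1 g2 hD').iff Pool.Agent.U739.GE.t_GOOD
    Pool.Agent.U796.GE.t_BND nb' nc' h4 (Pool.Agent.U115.GE.prod_eq hD'.1)
  rw [Pool.Agent.U115.GE.class_kap g1 g2 hD', cork_m h hD] at h1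
  refine Iff.trans h1 ?_
  constructor
  · intro h2
    by_contra h3
    have := Nat.one_lt_two_pow h3
    omega
  · intro h2
    rw [h2, pow_zero]

/-- the Selmer rank of the twist -/
theorem sr_m (nb : ¬ IsSquare b) (nc : ¬ IsSquare (a ^ 2 - 4 * b)) (hM : M ≠ 0) (h : m ∣ M)
    {D : ℕ} (hD : Class (a * M) (b * M ^ 2) D) :
    sr (a * m * D) (b * m ^ 2 * D ^ 2) = sr (a * m) (b * m ^ 2) + 2 * cork a b D := by
  have hb : b ≠ 0 := by
    rintro rfl
    exact nb ⟨0, by norm_num⟩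
  have hc : a ^ 2 - 4 * b ≠ 0 := by
    intro h
    exact nc ⟨0, by rw [h]; norm_num⟩
  have hm : m ≠ 0 := by
    rintro rfl
    exact hM (zero_dvd_iff.1 h)
  obtain ⟨g1, g2⟩ := Pool.Agent.U79.TF.gc_ne hb hc hm
  have hD' := Pool.Agent.U79.TF.class_sub h hD
  have hD0 : (D : ℤ) ≠ 0 := by exact_mod_cast hD.1.ne_zero
  obtain ⟨u1, u2⟩ := Pool.Agent.U79.TF.gc_ne g1 g2 hD0
  have H := Pool.Agent.U115.GE.class_hg g1 g2 hD'
  have e1 := H.sel_eq Pool.Agent.U739.GE.t_GOOD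
  have e2 := H.sel_eq' Pool.Agent.U739.GE.t_GOOD
  rw [← Pool.Agent.U115.GE.prod_eq hD'.1, Pool.Agent.U115.GE.class_kap g1 g2 hD',
    cork_m h hD] at e1 e2
  have e3 : Pool.Agent.U79.TF.sel2 (a * m * D) (b * m ^ 2 * D ^ 2) =
      (2 ^ cork a b D) ^ 2 * Pool.Agent.U79.TF.sel2 (a * m) (b * m ^ 2) := by
    unfold Pool.Agent.U79.TF.sel2
    rw [e1, e2]
    ring
  rw [Pool.Agent.U79.TF.sel2_pow u1 u2, Pool.Agent.U79.TF.sel2_pow g1 g2, ← pow_mul,
    ← pow_add] at e3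
  have e4 := Nat.pow_right_injective (le_refl 2) e3
  omega

end Pool.Agent.U79.MO
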