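import Pool.Agent.U79.MO.CUR
import Pool.Agent.U79.TF.Ord
import Pool.Agent.U115.GE.Ex

/-!
# Project GDM (helper79): the twists of a curve `y² = x³ + A x + B` with a rational point of order two
-/

set_option autoImplicit false

open scoped Classical
open Finset Filter WeierstrassCurve

namespace Pool.Agent.U79.MO

open Pool.Agent.U115.GD (ck)
open Pool.Agent.U115.GE (Class cork twE)
open Pool.Agent.TH841.NF.D (rk Sha)
open Pool.Agent.U79.TF (sr short Minimal Good exists_short)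

variable {A B e : ℤ}

theorem g4 (A e : ℤ) : 27 * (3 * (81 * (3 * e ^ 2 + A)) - (27 * e) ^ 2) = ((9 : ℕ) : ℤ) ^ 4 * A := by
  push_cast
  ring

theorem g6 (he : e ^ 3 + A * e + B = 0) : 27 * (2 * (27 * e) ^ 3 - 9 * (27 * e) *
    (81 * (3 * e ^ 2 + A))) = ((9 : ℕ) : ℤ) ^ 6 * B := by
  push_cast
  linear_combination (-531441) * he

theorem gc' (A e : ℤ) : (27 * e) ^ 2 - 4 * (81 * (3 * e ^ 2 + A)) =
    (-(3 * e ^ 2 + 4 * A)) * 9 ^ 2 := by ring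

theorem gb' (A e : ℤ) : 81 * (3 * e ^ 2 + A) = (3 * e ^ 2 + A) * 9 ^ 2 := by ring

theorem sht_iso (he : e ^ 3 + A * e + B = 0) {D : ℕ} (hD : D ≠ 0) : ∃ C : VariableChange ℚ,
    C • twE (27 * e) (81 * (3 * e ^ 2 + A)) D = short (A * D ^ 2) (B * D ^ 3) :=
  exists_short _ _ D hD 9 (by norm_num) A B (g4 A e) (g6 he)

theorem iso_inv {W W' : WeierstrassCurve ℚ} {C : VariableChange ℚ} (hΔ : W.Δ ≠ 0) (h : C • W = W') :
    rk W = rk W' ∧ Nat.card {x : Sha W // 2 • x = 0} = Nat.card {x : Sha W' // 2 • x = 0} ∧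
    (Finite {x : Sha W // 2 • x = 0} ↔ Finite {x : Sha W' // 2 • x = 0}) := by
  obtain ⟨-, ⟨f⟩⟩ := Pool.Agent.Y655.XT.s_shavc ℚ W W' C hΔ h
  have g : {x : Sha W // 2 • x = 0} ≃ {x : Sha W' // 2 • x = 0} :=
    f.toEquiv.subtypeEquiv fun x => by
      show 2 • x = 0 ↔ 2 • f x = 0
      rw [← map_nsmul, map_eq_zero_iff f f.injective]
  exact ⟨Pool.Agent.U79.TF.rk_smul ℚ W W' C hΔ h, Nat.card_congr g, g.finite_iff⟩

theorem twE_disc (a b : ℤ) (D : ℕ) : (twE a b D).Δ = ((16 * (b * D ^ 2) ^ 2 *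
    ((a * D) ^ 2 - 4 * (b * D ^ 2)) : ℤ) : ℚ) := by
  simp only [WeierstrassCurve.Δ, WeierstrassCurve.b₂, WeierstrassCurve.b₄, WeierstrassCurve.b₆,
    WeierstrassCurve.b₈, twE, Pool.Agent.Y682.wc]
  push_cast
  ring

theorem twE_disc_ne {a b : ℤ} (hb : b ≠ 0) (hc : a ^ 2 - 4 * b ≠ 0) {D : ℕ} (hD : D ≠ 0) :
    (twE a b D).Δ ≠ 0 := by
  obtain ⟨g1, g2⟩ := Pool.Agent.U79.TF.gc_ne hb hc (c := (D : ℤ)) (by exact_mod_cast hD)
  rw [twE_disc]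
  exact_mod_cast mul_ne_zero (mul_ne_zero (by norm_num) (pow_ne_zero 2 g1)) g2

theorem height_mul (A B : ℤ) (D : ℕ) :
    max (4 * (A * (D : ℤ) ^ 2).natAbs ^ 3) (27 * (B * (D : ℤ) ^ 3).natAbs ^ 2) =
      D ^ 6 * max (4 * A.natAbs ^ 3) (27 * B.natAbs ^ 2) := by
  have k1 : (A * (D : ℤ) ^ 2).natAbs = A.natAbs * D ^ 2 := by
    rw [Int.natAbs_mul, Int.natAbs_pow, Int.natAbs_natCast]
  have k2 : (B * (D : ℤ) ^ 3).natAbs = B.natAbs * D ^ 3 := by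
    rw [Int.natAbs_mul, Int.natAbs_pow, Int.natAbs_natCast]
  have e1 : 4 * (A.natAbs * D ^ 2) ^ 3 = D ^ 6 * (4 * A.natAbs ^ 3) := by ring
  have e2 : 27 * (B.natAbs * D ^ 3) ^ 2 = D ^ 6 * (27 * B.natAbs ^ 2) := by ring
  rw [k1, k2, e1, e2, Nat.mul_max_mul_left]

end Pool.Agent.U79.MO
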