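import Pool.Agent.U115.GD.StmK

/-!
# Project GDM (helper79): the mean number of solutions of a random symmetric completion

The block systems of `Pool.Agent.U115.GD.GdAK`: if the labels are not degenerate then the mean number
of solutions is at most `2`.
-/

set_option autoImplicit false
set_option linter.unusedVariables false

open scoped Classical

namespace Pool.Agent.U79.MO

open Finset hiding ext
open Pool.Agent.Y703.CQ (prs ext)

/-- `z` is a solution of the block system -/
def SolA {U J : Type} [Fintype U] [Fintype J] (U1 : Finset U) (J1 : Finset J)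
    (A : U → U → ZMod 2) (B : U → J → ZMod 2) (C : J → U → ZMod 2) (R : J → J → ZMod 2)
    (f : U → ZMod 2) (g : J → ZMod 2) (z : (U → ZMod 2) × (J → ZMod 2)) : Prop :=
  (∀ u, u ∉ U1 → z.1 u = 0) ∧
    (∀ l, l ∉ J1 → z.2 l = 0) ∧
    (∀ u ∈ U1, ∑ v, A u v * (z.1 v + z.1 u) + ∑ l, B u l * (z.2 l + z.1 u) + f u * z.1 u = 0) ∧
    (∀ j ∈ J1, ∑ u, C j u * (z.1 u + z.2 j) + ∑ l, R j l * (z.2 l + z.2 j) + g j * z.2 j = 0)

theorem fiber_card {V W : Type} [AddCommGroup V] [AddCommGroup W] [Fintype V] [Fintype W]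
    [DecidableEq W]
    (φ : V →+ W) (h : Function.Surjective φ) (w : W) :
    (univ.filter fun v => φ v = w).card * Fintype.card W = Fintype.card V := by
  have h1 : (univ : Finset V).card = ∑ w' ∈ (univ : Finset W), (univ.filter fun v => φ v = w').card :=
    Finset.card_eq_sum_card_fiberwise fun v _ => Finset.mem_coe.2 (Finset.mem_univ _)
  have h2 : ∀ w' ∈ (univ : Finset W), (univ.filter fun v => φ v = w').card =
      (univ.filter fun v => φ v = w).card := by
    intro w' _
    exact AddMonoidHom.card_fiber_eq_of_mem_range φ (h w') (h w)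
  rw [Finset.sum_congr rfl h2, Finset.sum_const, smul_eq_mul, Finset.card_univ, Finset.card_univ] at h1
  rw [h1, mul_comm]

section ext
variable {J : Type} [Fintype J] [LinearOrder J] {J1 : Finset J}

theorem ext_add (α β : prs J1 → ZMod 2) (k l : J) : ext (α + β) k l = ext α k l + ext β k l := by
  unfold ext
  split_ifs <;> simp

theorem ext_single (e : prs J1) {i : J} (hi : i ∈ J1) (l : J) :
    ext (Pi.single e (1 : ZMod 2)) i l =
      (if (i, l) = e.1 then 1 else 0) + (if (l, i) = e.1 then 1 else 0) := by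
  have he := (Finset.mem_filter.1 e.2).2
  unfold ext
  by_cases h1 : (i, l) ∈ prs J1
  · rw [dif_pos h1]
    have hil := (Finset.mem_filter.1 h1).2
    have h2 : (l, i) ≠ e.1 := by
      intro h
      rw [← h] at he
      have h3 := he.2.2 hi
      have h4 := hil.2.2 he.1
      exact absurd h3 (not_lt.2 h4.le)
    rw [if_neg h2, add_zero, Pi.single_apply]
    by_cases h3 : (i, l) = e.1
    · rw [if_pos h3, if_pos (Subtype.ext h3)]
    · rw [if_neg h3, if_neg fun h => h3 (congrArg Subtype.val h)]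
  · rw [dif_neg h1]
    have h2 : (i, l) ≠ e.1 := fun h => h1 (h ▸ e.2)
    rw [if_neg h2, zero_add]
    by_cases h3 : (l, i) ∈ prs J1
    · rw [dif_pos ⟨h3, hi⟩, Pi.single_apply]
      by_cases h4 : (l, i) = e.1
      · rw [if_pos h4, if_pos (Subtype.ext h4)]
      · rw [if_neg h4, if_neg fun h => h4 (congrArg Subtype.val h)]
    · rw [dif_neg fun h => h3 h.1, if_neg fun h : (l, i) = e.1 => h3 (by rw [h]; exact e.2)]

/-- the rows as a homomorphism -/
noncomputable def rowH (J1 : Finset J) (y : J → ZMod 2) : (prs J1 → ZMod 2) →+ (J1 → ZMod 2) where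
  toFun α := fun j => ∑ l, ext α (j : J) l * (y l + y j)
  map_zero' := by
    funext j
    refine Finset.sum_eq_zero fun l _ => ?_
    have : ext (0 : prs J1 → ZMod 2) (j : J) l = 0 := by
      unfold ext
      split_ifs <;> rfl
    rw [this, zero_mul]
  map_add' α β := by
    funext j
    show _ = (∑ l, ext α (j : J) l * (y l + y j)) + ∑ l, ext β (j : J) l * (y l + y j)
    rw [← Finset.sum_add_distrib]
    refine Finset.sum_congr rfl fun l _ => ?_
    rw [ext_add, add_mul]

theorem rowH_single (y : J → ZMod 2) (e : prs J1) (j : J1) :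
    rowH J1 y (Pi.single e 1) j = (if e.1.1 = (j : J) then y e.1.2 + y j else 0) +
      (if e.1.2 = (j : J) then y e.1.1 + y j else 0) := by
  show ∑ l, ext (Pi.single e (1 : ZMod 2)) (j : J) l * (y l + y j) = _
  have h1 : ∀ l ∈ (univ : Finset J), ext (Pi.single e (1 : ZMod 2)) (j : J) l * (y l + y j) =
      (if l = e.1.2 then (if e.1.1 = (j : J) then y e.1.2 + y j else 0) else 0) +
      (if l = e.1.1 then (if e.1.2 = (j : J) then y e.1.1 + y j else 0) else 0) := by
    intro l _
    rw [ext_single e j.2, add_mul]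
    congr 1
    · by_cases h2 : ((j : J), l) = e.1
      · rw [if_pos h2, if_pos (by rw [← h2]), if_pos (by rw [← h2]), one_mul, ← h2]
      · rw [if_neg h2, zero_mul]
        by_cases h3 : l = e.1.2
        · rw [if_pos h3, if_neg fun h4 => h2 (Prod.ext h4.symm h3)]
        · rw [if_neg h3]
    · by_cases h2 : (l, (j : J)) = e.1
      · rw [if_pos h2, if_pos (by rw [← h2]), if_pos (by rw [← h2]), one_mul, ← h2]
      · rw [if_neg h2, zero_mul]
        by_cases h3 : l = e.1.1
        · rw [if_pos h3, if_neg fun h4 => h2 (Prod.ext h3 h4.symm)]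
        · rw [if_neg h3]
  rw [Finset.sum_congr rfl h1, Finset.sum_add_distrib, Finset.sum_ite_eq' univ, Finset.sum_ite_eq' univ,
    if_pos (Finset.mem_univ _), if_pos (Finset.mem_univ _)]

theorem z2 (a : ZMod 2) : a = 0 ∨ a = 1 := by
  revert a
  decide

theorem rowH_surj {y : J → ZMod 2} (hne : ∃ l, l ∉ J1) (hy : ∀ l, l ∉ J1 → y l = 0)
    (hy0 : ∃ l, y l ≠ 0) : Function.Surjective (rowH J1 y) := by
  obtain ⟨l₀, hl₀⟩ := hne
  obtain ⟨m, hm⟩ := hy0
  have hm1 : y m = 1 := (z2 (y m)).resolve_left hm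
  have hmJ : m ∈ J1 := by
    by_contra h
    exact hm (hy m h)
  -- the rows with `y j = 1`
  have hA : ∀ j : J1, y j = 1 → ∃ α, rowH J1 y α = Pi.single j 1 := by
    intro j hj
    have hne' : l₀ ≠ (j : J) := fun h => hl₀ (h ▸ j.2)
    have he : ((j : J), l₀) ∈ prs J1 :=
      Finset.mem_filter.2 ⟨Finset.mem_univ _, j.2, hne', fun h => absurd h hl₀⟩
    refine ⟨Pi.single ⟨_, he⟩ 1, funext fun i => ?_⟩
    rw [rowH_single, Pi.single_apply]
    have h2 : ¬ (l₀ = (i : J)) := fun h => hl₀ (h ▸ i.2)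
    rw [if_neg h2, add_zero]
    by_cases h3 : i = j
    · rw [if_pos h3, if_pos (by rw [h3]), h3, hj, hy l₀ hl₀, zero_add]
    · rw [if_neg h3, if_neg fun h => h3 (Subtype.ext h.symm)]
  have hB : ∀ j : J1, ∃ α, rowH J1 y α = Pi.single j 1 := by
    intro j
    rcases z2 (y j) with hj | hj
    · obtain ⟨β, hβ⟩ := hA ⟨m, hmJ⟩ hm1
      have hjm : (j : J) ≠ m := by
        intro h
        rw [h, hm1] at hj
        exact one_ne_zero hj
      have key : ∃ α, rowH J1 y α = Pi.single j 1 + Pi.single ⟨m, hmJ⟩ 1 := by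
        rcases lt_or_gt_of_ne hjm with hlt | hlt
        · have he : ((j : J), m) ∈ prs J1 :=
            Finset.mem_filter.2 ⟨Finset.mem_univ _, j.2, hjm.symm, fun _ => hlt⟩
          refine ⟨Pi.single ⟨_, he⟩ 1, funext fun i => ?_⟩
          rw [rowH_single, Pi.add_apply, Pi.single_apply, Pi.single_apply]
          congr 1
          · by_cases h3 : i = j
            · rw [if_pos h3, if_pos (by rw [h3]), h3, hj, hm1, add_zero]
            · rw [if_neg h3, if_neg fun h => h3 (Subtype.ext h.symm)]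
          · by_cases h3 : i = ⟨m, hmJ⟩
            · rw [if_pos h3, if_pos (by rw [h3]), h3, hj, hm1, zero_add]
            · rw [if_neg h3, if_neg fun h => h3 (Subtype.ext h.symm)]
        · have he : (m, (j : J)) ∈ prs J1 :=
            Finset.mem_filter.2 ⟨Finset.mem_univ _, hmJ, hjm, fun _ => hlt⟩
          refine ⟨Pi.single ⟨_, he⟩ 1, funext fun i => ?_⟩
          rw [rowH_single, Pi.add_apply, Pi.single_apply, Pi.single_apply, add_comm]
          congr 1
          · by_cases h3 : i = j
            · rw [if_pos h3, if_pos (by rw [h3]), h3, hj, hm1, add_zero]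
            · rw [if_neg h3, if_neg fun h => h3 (Subtype.ext h.symm)]
          · by_cases h3 : i = ⟨m, hmJ⟩
            · rw [if_pos h3, if_pos (by rw [h3]), h3, hj, hm1, zero_add]
            · rw [if_neg h3, if_neg fun h => h3 (Subtype.ext h.symm)]
      obtain ⟨α, hα⟩ := key
      refine ⟨α + β, ?_⟩
      rw [map_add, hα, hβ, add_assoc]
      have : (Pi.single (⟨m, hmJ⟩ : J1) (1 : ZMod 2) : J1 → ZMod 2) + Pi.single ⟨m, hmJ⟩ 1 = 0 := by
        rw [← Pi.single_add]
        have : (1 : ZMod 2) + 1 = 0 := by decide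
        rw [this, Pi.single_zero]
      rw [this, add_zero]
    · exact hA j hj
  intro t
  choose a ha using hB
  refine ⟨∑ j : J1, if t j = 1 then a j else 0, ?_⟩
  rw [map_sum]
  funext i
  rw [Finset.sum_apply]
  have h3 : ∀ j ∈ (univ : Finset J1), rowH J1 y (if t j = 1 then a j else 0) i =
      if i = j then t j else 0 := by
    intro j _
    rcases z2 (t j) with h | h
    · rw [h, if_neg (by decide), map_zero, Pi.zero_apply, ite_self]
    · rw [h, if_pos rfl, ha, Pi.single_apply]
  rw [Finset.sum_congr rfl h3, Finset.sum_ite_eq univ, if_pos (Finset.mem_univ _)]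

end ext

section count
variable {U J : Type} [Fintype U] [Fintype J] {U1 : Finset U} {J1 : Finset J}
  {B : U → J → ZMod 2} {C : J → U → ZMod 2}

/-- the map to the rows of the small primes -/
noncomputable def rowU (U1 : Finset U) (J1 : Finset J) (B : U → J → ZMod 2) :
    (J1 → ZMod 2) →ₗ[ZMod 2] (U1 → ZMod 2) where
  toFun t := fun u => ∑ k : J1, B u k * t k
  map_add' s t := by
    funext u
    show _ = (∑ k : J1, B u k * s k) + ∑ k : J1, B u k * t k
    rw [← Finset.sum_add_distrib]
    exact Finset.sum_congr rfl fun k _ => mul_add _ _ _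
  map_smul' c t := by
    funext u
    show _ = c * ∑ k : J1, B u k * t k
    rw [Finset.mul_sum]
    refine Finset.sum_congr rfl fun k _ => ?_
    show B u k * (c * t k) = _
    ring

theorem rowU_surj (hBC : ∀ u ∈ U1, ∀ k ∈ J1, B u k = C k u)
    (hnd : ∀ w : U → ZMod 2, (∀ u, u ∉ U1 → w u = 0) → (∃ u, w u ≠ 0) →
      ∃ k ∈ J1, ∑ u, w u * C k u ≠ 0) : Function.Surjective (rowU U1 J1 B) := by
  rw [← LinearMap.range_eq_top]
  by_contra h
  obtain ⟨φ, hφ, hφ2⟩ := Submodule.exists_dual_map_eq_bot_of_lt_top (lt_top_iff_ne_top.2 h)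
    inferInstance
  have hφ3 : ∀ t, φ (rowU U1 J1 B t) = 0 := by
    intro t
    have h1 : φ (rowU U1 J1 B t) ∈ (LinearMap.range (rowU U1 J1 B)).map φ :=
      Submodule.mem_map_of_mem ⟨t, rfl⟩
    rw [hφ2] at h1
    exact (Submodule.mem_bot _).1 h1
  set w : U → ZMod 2 := fun u => if h : u ∈ U1 then φ (Pi.single ⟨u, h⟩ 1) else 0 with hw
  have hexp : ∀ s : U1 → ZMod 2, φ s = ∑ u : U1, s u * φ (Pi.single u 1) := by
    intro s
    have h1 : s = ∑ u : U1, s u • (Pi.single u (1 : ZMod 2) : U1 → ZMod 2) := by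
      funext i
      rw [Finset.sum_apply]
      have h2 : ∀ u ∈ (univ : Finset U1), (s u • (Pi.single u (1 : ZMod 2) : U1 → ZMod 2)) i =
          if i = u then s u else 0 := by
        intro u _
        rw [Pi.smul_apply, Pi.single_apply, smul_eq_mul]
        split_ifs <;> simp
      rw [Finset.sum_congr rfl h2, Finset.sum_ite_eq univ, if_pos (Finset.mem_univ _)]
    conv_lhs => rw [h1]
    rw [map_sum]
    exact Finset.sum_congr rfl fun u _ => by rw [map_smul, smul_eq_mul]
  have hw0 : ∃ u, w u ≠ 0 := by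
    by_contra h0
    push Not at h0
    apply hφ
    refine LinearMap.ext fun s => ?_
    rw [hexp]
    refine Finset.sum_eq_zero fun u _ => ?_
    have h2 := h0 u
    rw [hw] at h2
    simp only [dif_pos u.2] at h2
    rw [h2, mul_zero]
  obtain ⟨k, hk, hk2⟩ := hnd w (fun u hu => by rw [hw]; simp only [dif_neg hu]) hw0
  apply hk2
  have h1 := hφ3 (Pi.single ⟨k, hk⟩ 1)
  rw [hexp] at h1
  rw [← h1]
  have h2 : ∑ u, w u * C k u = ∑ u ∈ U1, w u * C k u := by
    symm
    refine Finset.sum_subset (Finset.subset_univ _) fun u _ hu => ?_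
    rw [hw]
    simp only [dif_neg hu, zero_mul]
  rw [h2, ← Finset.sum_coe_sort U1 (fun u => w u * C k u)]
  refine Finset.sum_congr rfl fun u _ => ?_
  have h3 : rowU U1 J1 B (Pi.single ⟨k, hk⟩ 1) u = C k u := by
    show ∑ k' : J1, B u k' * (Pi.single (⟨k, hk⟩ : J1) (1 : ZMod 2) : J1 → ZMod 2) k' = _
    have h4 : ∀ k' ∈ (univ : Finset J1),
        B u k' * (Pi.single (⟨k, hk⟩ : J1) (1 : ZMod 2) : J1 → ZMod 2) k' =
        if k' = ⟨k, hk⟩ then B u k' else 0 := by
      intro k' _
      rw [Pi.single_apply]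
      split_ifs <;> simp
    rw [Finset.sum_congr rfl h4, Finset.sum_ite_eq' univ, if_pos (Finset.mem_univ _)]
    exact hBC u u.2 k hk
  rw [h3, hw]
  simp only [dif_pos u.2]
  rw [mul_comm]

/-- the pairs that satisfy the rows of the small primes -/
theorem card_rows (A : U → U → ZMod 2) (f : U → ZMod 2)
    (hBC : ∀ u ∈ U1, ∀ k ∈ J1, B u k = C k u)
    (hnd : ∀ w : U → ZMod 2, (∀ u, u ∉ U1 → w u = 0) → (∃ u, w u ≠ 0) →
      ∃ k ∈ J1, ∑ u, w u * C k u ≠ 0) :
    (univ.filter fun z : (U → ZMod 2) × (J → ZMod 2) => (∀ u, u ∉ U1 → z.1 u = 0) ∧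
      (∀ l, l ∉ J1 → z.2 l = 0) ∧
      (∀ u ∈ U1, ∑ v, A u v * (z.1 v + z.1 u) + ∑ l, B u l * (z.2 l + z.1 u) + f u * z.1 u = 0)).card
      ≤ 2 ^ J1.card := by
  have hs := rowU_surj (U1 := U1) (J1 := J1) hBC hnd
  set Z := univ.filter fun z : (U → ZMod 2) × (J → ZMod 2) => (∀ u, u ∉ U1 → z.1 u = 0) ∧
      (∀ l, l ∉ J1 → z.2 l = 0) ∧
      (∀ u ∈ U1, ∑ v, A u v * (z.1 v + z.1 u) + ∑ l, B u l * (z.2 l + z.1 u) + f u * z.1 u = 0)
    with hZ
  set F := (univ.filter fun t => (rowU U1 J1 B).toAddMonoidHom t = 0).card with hF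
  have hF1 := fiber_card (rowU U1 J1 B).toAddMonoidHom hs 0
  rw [Fintype.card_fun, Fintype.card_fun, ZMod.card, Fintype.card_coe, Fintype.card_coe] at hF1
  have hfib : ∀ c, (univ.filter fun t => (rowU U1 J1 B).toAddMonoidHom t = c).card = F := by
    intro c
    exact AddMonoidHom.card_fiber_eq_of_mem_range _ (hs c) (hs 0)
  have h1 : Z.card ≤ F * (univ : Finset (U1 → ZMod 2)).card := by
    refine Finset.card_le_mul_card_image_of_maps_to (f := fun z (u : U1) => z.1 u)
      (fun z _ => Finset.mem_univ _) F fun ξ _ => ?_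
    -- the value of the rows
    set xx : U → ZMod 2 := fun u => if h : u ∈ U1 then ξ ⟨u, h⟩ else 0 with hxx
    set c : U1 → ZMod 2 := fun u => ∑ v, A u v * (xx v + xx u) + ∑ l, B u l * xx u + f u * xx u
      with hc
    rw [← hfib c]
    refine Finset.card_le_card_of_injOn (fun z (k : J1) => z.2 k) ?_ ?_
    · intro z hz
      rw [Finset.mem_coe, Finset.mem_filter, hZ, Finset.mem_filter] at hz
      obtain ⟨⟨-, hz1, hz2, hz3⟩, hz4⟩ := hz
      have hx : z.1 = xx := by
        funext u
        rw [hxx]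
        by_cases h : u ∈ U1
        · simp only [dif_pos h]
          exact congrFun hz4 ⟨u, h⟩
        · simp only [dif_neg h]
          exact hz1 u h
      rw [Finset.mem_coe, Finset.mem_filter]
      refine ⟨Finset.mem_univ _, funext fun u => ?_⟩
      have h2 := hz3 u u.2
      rw [hx] at h2
      show ∑ k : J1, B u k * z.2 k = c u
      have h3 : ∑ k : J1, B u k * z.2 k = ∑ l, B u l * z.2 l := by
        rw [Finset.sum_coe_sort J1 (fun k => B u k * z.2 k)]
        refine Finset.sum_subset (Finset.subset_univ _) fun l _ hl => ?_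
        rw [hz2 l hl, mul_zero]
      have h4 : ∑ l, B u l * (z.2 l + xx u) = ∑ l, B u l * z.2 l + ∑ l, B u l * xx u := by
        rw [← Finset.sum_add_distrib]
        exact Finset.sum_congr rfl fun l _ => mul_add _ _ _
      rw [h4] at h2
      rw [h3, hc]
      have h5 : ∀ p q r s : ZMod 2, p + (q + r) + s = 0 → q = p + r + s := by decide
      exact h5 _ _ _ _ h2
    · intro z hz z' hz' he
      rw [Finset.mem_coe, Finset.mem_filter, hZ, Finset.mem_filter] at hz hz'
      refine Prod.ext (funext fun u => ?_) (funext fun l => ?_)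
      · by_cases h : u ∈ U1
        · have := congrFun (hz.2.trans hz'.2.symm) ⟨u, h⟩
          exact this
        · rw [hz.1.2.1 u h, hz'.1.2.1 u h]
      · by_cases h : l ∈ J1
        · exact congrFun he ⟨l, h⟩
        · rw [hz.1.2.2.1 l h, hz'.1.2.2.1 l h]
  rw [Finset.card_univ, Fintype.card_fun, ZMod.card, Fintype.card_coe, hF1] at h1
  exact h1

end count

/-- **the mean number of solutions is at most `2`** -/
theorem lam (U J : Type) [Fintype U] [Fintype J] [LinearOrder J]
    (U1 : Finset U) (J1 : Finset J) (hne : ∃ l, l ∉ J1) (A : U → U → ZMod 2) (B : U → J → ZMod 2)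
    (C : J → U → ZMod 2) (f : U → ZMod 2) (g : J → ZMod 2)
    (hBC : ∀ u ∈ U1, ∀ k ∈ J1, B u k = C k u)
    (hnd : ∀ w : U → ZMod 2, (∀ u, u ∉ U1 → w u = 0) → (∃ u, w u ≠ 0) →
      ∃ k ∈ J1, ∑ u, w u * C k u ≠ 0) :
    ∑ z : (U → ZMod 2) × (J → ZMod 2),
      ((univ.filter fun α : prs J1 → ZMod 2 => SolA U1 J1 A B C (ext α) f g z).card : ℝ) ≤
      2 * 2 ^ (prs J1).card := by
  set Z := univ.filter fun z : (U → ZMod 2) × (J → ZMod 2) => (∀ u, u ∉ U1 → z.1 u = 0) ∧
      (∀ l, l ∉ J1 → z.2 l = 0) ∧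
      (∀ u ∈ U1, ∑ v, A u v * (z.1 v + z.1 u) + ∑ l, B u l * (z.2 l + z.1 u) + f u * z.1 u = 0)
    with hZ
  have hcZ : (Z.card : ℝ) ≤ 2 ^ J1.card := by
    have h0 := card_rows A f hBC hnd
    have h1 : Z.card ≤ 2 ^ J1.card := by
      refine le_trans ?_ h0
      refine Finset.card_le_card fun z hz => ?_
      have hz := (Finset.mem_filter.1 hz).2
      simp only [Finset.mem_filter, Finset.mem_univ, true_and]
      exact hz
    exact_mod_cast h1
  have hN : Fintype.card (prs J1 → ZMod 2) = 2 ^ (prs J1).card := by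
    rw [Fintype.card_fun, ZMod.card, Fintype.card_coe]
  -- each pair
  have key : ∀ z : (U → ZMod 2) × (J → ZMod 2),
      ((univ.filter fun α : prs J1 → ZMod 2 => SolA U1 J1 A B C (ext α) f g z).card : ℝ) ≤
      (if z = 0 then (2 : ℝ) ^ (prs J1).card else 0) +
        (if z ∈ Z then (2 : ℝ) ^ (prs J1).card / 2 ^ J1.card else 0) := by
    intro z
    by_cases hemp : (univ.filter fun α : prs J1 → ZMod 2 => SolA U1 J1 A B C (ext α) f g z) = ∅
    · rw [hemp, Finset.card_empty, Nat.cast_zero]
      positivity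
    obtain ⟨α₀, hα₀⟩ := Finset.nonempty_iff_ne_empty.2 hemp
    have hα₀ := (Finset.mem_filter.1 hα₀).2
    have hzZ : z ∈ Z := Finset.mem_filter.2 ⟨Finset.mem_univ _, hα₀.1, hα₀.2.1, hα₀.2.2.1⟩
    by_cases hy : ∃ l, z.2 l ≠ 0
    · have hs := rowH_surj hne hα₀.2.1 hy
      set c : J1 → ZMod 2 := fun j => ∑ u, C j u * (z.1 u + z.2 j) + g j * z.2 j with hc
      have h1 : (univ.filter fun α : prs J1 → ZMod 2 => SolA U1 J1 A B C (ext α) f g z).card ≤
          (univ.filter fun α => rowH J1 z.2 α = c).card := by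
        refine Finset.card_le_card fun α hα => ?_
        have hα := (Finset.mem_filter.1 hα).2
        refine Finset.mem_filter.2 ⟨Finset.mem_univ _, funext fun j => ?_⟩
        have h2 := hα.2.2.2 j j.2
        show ∑ l, ext α (j : J) l * (z.2 l + z.2 j) = c j
        have h5 : ∀ p q r : ZMod 2, p + q + r = 0 → q = p + r := by decide
        exact h5 _ _ _ h2
      have h2 := fiber_card (rowH J1 z.2) hs c
      rw [hN, Fintype.card_fun, ZMod.card, Fintype.card_coe] at h2
      have h3 : ((univ.filter fun α => rowH J1 z.2 α = c).card : ℝ) * 2 ^ J1.card =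
          2 ^ (prs J1).card := by exact_mod_cast h2
      have h4 : ((univ.filter fun α => rowH J1 z.2 α = c).card : ℝ) =
          2 ^ (prs J1).card / 2 ^ J1.card := by
        rw [eq_div_iff (by positivity), h3]
      have h5 : ((univ.filter fun α : prs J1 → ZMod 2 => SolA U1 J1 A B C (ext α) f g z).card : ℝ) ≤
          2 ^ (prs J1).card / 2 ^ J1.card := by
        rw [← h4]
        exact_mod_cast h1
      rw [if_pos hzZ]
      have h6 : (0 : ℝ) ≤ if z = 0 then (2 : ℝ) ^ (prs J1).card else 0 := by positivity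
      linarith
    · push Not at hy
      have hz0 : z = 0 := by
        refine Prod.ext ?_ (funext hy)
        by_contra hx
        have hx2 : ∃ u, z.1 u ≠ 0 := by
          by_contra h
          push Not at h
          exact hx (funext h)
        obtain ⟨k, hk, hk2⟩ := hnd z.1 hα₀.1 hx2
        apply hk2
        have h2 := hα₀.2.2.2 k hk
        have e1 : ∑ l, ext α₀ k l * (z.2 l + z.2 k) = 0 := by
          refine Finset.sum_eq_zero fun l _ => ?_
          rw [hy l, hy k, add_zero, mul_zero]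
        rw [e1, hy k, mul_zero, add_zero, add_zero] at h2
        rw [← h2]
        refine Finset.sum_congr rfl fun u _ => ?_
        rw [add_zero, mul_comm]
      rw [if_pos hz0]
      have h5 : ((univ.filter fun α : prs J1 → ZMod 2 => SolA U1 J1 A B C (ext α) f g z).card : ℝ) ≤
          2 ^ (prs J1).card := by
        have : (univ.filter fun α : prs J1 → ZMod 2 => SolA U1 J1 A B C (ext α) f g z).card ≤
            2 ^ (prs J1).card := by
          rw [← hN]
          exact Finset.card_le_univ _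
        exact_mod_cast this
      have h6 : (0 : ℝ) ≤ if z ∈ Z then (2 : ℝ) ^ (prs J1).card / 2 ^ J1.card else 0 := by
        positivity
      linarith
  refine (Finset.sum_le_sum fun z _ => key z).trans ?_
  rw [Finset.sum_add_distrib, Finset.sum_ite_eq' univ, if_pos (Finset.mem_univ _),
    Finset.sum_ite_mem, Finset.univ_inter, Finset.sum_const, nsmul_eq_mul]
  have h7 : (Z.card : ℝ) * (2 ^ (prs J1).card / 2 ^ J1.card) ≤ 2 ^ (prs J1).card := by
    calc (Z.card : ℝ) * (2 ^ (prs J1).card / 2 ^ J1.card) ≤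
          2 ^ J1.card * (2 ^ (prs J1).card / 2 ^ J1.card) := by gcongr
      _ = 2 ^ (prs J1).card := by field_simp
  linarith

end Pool.Agent.U79.MO
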