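import Pool.Agent.U79.GD.BOXK
import Pool.Agent.U79.MO.LA

/-!
# Project GDM (helper79): the mean number of elements of the kernel in a box
-/

set_option autoImplicit false
set_option linter.unusedVariables false

open scoped Classical

namespace Pool.Agent.U79.MO

open Finset
open Pool.Agent.U115.GD
open Pool.Agent.Y703.CQ (nr sg prs HB S_EQ)
open Pool.Agent.U439.GD (Lb lb LN nr_self nr_symm nd_iff sum_un ext_sum HB_sub)
open Pool.Agent.U79.GD (cu_eq glue glue_left glue_right sol_iff)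

/-- the number of elements of the kernel -/
noncomputable def nk (G : Cfg) (f : ℕ → ZMod 2) (S : Finset ℕ) : ℕ :=
  Nat.card {x : ℕ → ZMod 2 // (∀ p, ¬ (p ∈ S ∧ Hc G p) → x p = 0) ∧ Sol G f S x}

theorem gdK_nk (G : Cfg) (f : ℕ → ZMod 2) (k : ℕ) (S : Finset ℕ) :
    GdK G f k S ↔ nk G f S = 2 ^ k := Iff.rfl

theorem nk_box {G : Cfg} {ι : Type} [Fintype ι] [LinearOrder ι] {J1 : Finset ι} {S₀ : Finset ℕ}
    {p : ι → ℕ} (f : ℕ → ZMod 2) (hp : Function.Injective p) (hpr : ∀ i, (p i).Prime ∧ p i ≠ 2)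
    (hd : ∀ i, p i ∉ S₀) (hJ : ∀ i, Hc G (p i) ↔ i ∈ J1) :
    nk G f (S₀ ∪ univ.image p) = (univ.filter fun z : (S₀ → ZMod 2) × (ι → ZMod 2) =>
      SolA (univ.filter fun u : S₀ => Hc G (u : ℕ)) J1
      (fun u v : S₀ => nr u v) (fun (u : S₀) l => nr u (p l)) (fun k (u : S₀) => nr (p k) u)
      (Pool.Agent.Y703.CQ.ext fun e : prs J1 => nr (p e.1.1) (p e.1.2))
      (fun u : S₀ => f u) (fun k => f (p k)) z).card := by
  rw [← Fintype.card_subtype, ← Nat.card_eq_fintype_card]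
  unfold nk SolA
  have hsup : ∀ (c : S₀ → ZMod 2) (d : ι → ZMod 2),
      (∀ u, u ∉ univ.filter (fun u : S₀ => Hc G (u : ℕ)) → c u = 0) → (∀ l, l ∉ J1 → d l = 0) →
      ∀ q, ¬ (q ∈ S₀ ∪ univ.image p ∧ Hc G q) → glue S₀ p c d q = 0 := by
    intro c d hc0 hd0 q hq
    by_cases h1 : q ∈ S₀
    · rw [show glue S₀ p c d q = c ⟨q, h1⟩ from glue_left c d ⟨q, h1⟩]
      exact hc0 _ fun hu => hq ⟨Finset.mem_union_left _ h1, (Finset.mem_filter.1 hu).2⟩
    · by_cases h2 : ∃ l, p l = q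
      · obtain ⟨l, rfl⟩ := h2
        rw [glue_right hp hd]
        exact hd0 l fun hl => hq ⟨Finset.mem_union_right _
          (Finset.mem_image_of_mem _ (Finset.mem_univ _)), (hJ l).2 hl⟩
      · unfold glue
        rw [dif_neg h1, dif_neg h2]
  refine Nat.card_congr
    { toFun := fun x => ⟨(fun u => x.1 u, fun l => x.1 (p l)), ?_, ?_, ?_, ?_⟩
      invFun := fun z => ⟨glue S₀ p z.1.1 z.1.2, ?_, ?_⟩
      left_inv := ?_
      right_inv := ?_ }
  · intro u hu
    exact x.2.1 _ fun h => hu (Finset.mem_filter.2 ⟨Finset.mem_univ _, h.2⟩)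
  · intro l hl
    exact x.2.1 _ fun h => hl ((hJ l).1 h.2)
  · exact ((sol_iff f hp hpr hd hJ x.1 x.2.1).1 x.2.2).1
  · exact ((sol_iff f hp hpr hd hJ x.1 x.2.1).1 x.2.2).2
  · exact hsup _ _ z.2.1 z.2.2.1
  · rw [sol_iff f hp hpr hd hJ _ (hsup _ _ z.2.1 z.2.2.1)]
    simp only [glue_left, glue_right hp hd]
    exact ⟨z.2.2.2.1, z.2.2.2.2⟩
  · intro x
    refine Subtype.ext (funext fun q => ?_)
    by_cases h1 : q ∈ S₀
    · exact glue_left _ _ (⟨q, h1⟩ : S₀)
    · by_cases h2 : ∃ l, p l = q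
      · obtain ⟨l, rfl⟩ := h2
        exact glue_right hp hd _ _ l
      · have h3 : x.1 q = 0 := by
          refine x.2.1 q fun h => ?_
          rw [Finset.mem_union, Finset.mem_image] at h
          rcases h.1 with h4 | ⟨l, -, h4⟩
          · exact h1 h4
          · exact h2 ⟨l, h4⟩
        show glue S₀ p _ _ q = x.1 q
        rw [h3]
        unfold glue
        rw [dif_neg h1, dif_neg h2]
  · intro z
    refine Subtype.ext (Prod.ext (funext fun u => ?_) (funext fun l => ?_))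
    · exact glue_left _ _ u
    · exact glue_right hp hd _ _ l

/-- **The mean number of elements of the kernel in a box.** -/
theorem boxm (hEQ : S_EQ) (G : Cfg) (f : ℕ → ZMod 2)
    (ι : Type) [Fintype ι] [LinearOrder ι] (J1 : Finset ι) (C : ι → Finset ℕ) (X : ι → ℕ) (κ : ℝ)
    (S₀ : Finset ℕ) (hκ : 0 ≤ κ) (hCX : ∀ i, (C i).card ≤ X i) (hHB : HB J1 C X κ)
    (hS₀ : ∀ u ∈ S₀, u.Prime ∧ u ≠ 2)
    (hC : ∀ i, ∀ p ∈ C i, p.Prime ∧ p ≠ 2 ∧ p ∉ S₀ ∧ (i ∈ J1 ↔ Hc G p))
    (hdis : ∀ i l, i ≠ l → Disjoint (C i) (C l)) (hne : ∃ i, i ∉ J1) :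
    ∑ p ∈ (Fintype.piFinset C).filter (fun p => Nd G S₀ (univ.image p)),
      (nk G f (S₀ ∪ univ.image p) : ℝ) ≤
    2 * (((Fintype.piFinset C).filter fun p => Nd G S₀ (univ.image p)).card : ℝ) +
    2 ^ ((2 * S₀.card + 1) * Fintype.card ι + (prs J1).card + (S₀.card + Fintype.card ι)) *
      (κ * ∏ j, (X j : ℝ)) := by
  set R : ℝ := 2 ^ (prs J1).card * (κ * ∏ j, (X j : ℝ)) with hR
  have hR0 : 0 ≤ R := mul_nonneg (by positivity)
    (mul_nonneg hκ (Finset.prod_nonneg fun j _ => by positivity))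
  -- facts on tuples
  have hinj : ∀ p ∈ Fintype.piFinset C, Function.Injective p := by
    intro p hp i j hij
    rw [Fintype.mem_piFinset] at hp
    by_contra hne
    have h1 := Finset.disjoint_left.1 (hdis i j hne) (hp i)
    rw [hij] at h1
    exact h1 (hp j)
  have hJ : ∀ p ∈ Fintype.piFinset C, ∀ i, Hc G (p i) ↔ i ∈ J1 := by
    intro p hp i
    rw [Fintype.mem_piFinset] at hp
    exact (hC i _ (hp i)).2.2.2.symm
  have hd : ∀ p ∈ Fintype.piFinset C, ∀ i, p i ∉ S₀ := by
    intro p hp i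
    rw [Fintype.mem_piFinset] at hp
    exact (hC i _ (hp i)).2.2.1
  have hpr : ∀ p ∈ Fintype.piFinset C, ∀ i, (p i).Prime ∧ p i ≠ 2 := by
    intro p hp i
    rw [Fintype.mem_piFinset] at hp
    exact ⟨(hC i _ (hp i)).1, (hC i _ (hp i)).2.1⟩
  have hnz : Fintype.card ((S₀ → ZMod 2) × (ι → ZMod 2)) = 2 ^ (S₀.card + Fintype.card ι) := by
    rw [Fintype.card_prod, Fintype.card_fun, Fintype.card_fun, ZMod.card, Fintype.card_coe, pow_add]
  -- the part with given labels
  have h1 : ∀ β : ι → Lb S₀, LN G S₀ J1 β →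
      ∑ p ∈ (Fintype.piFinset C).filter (fun p => (fun i => lb f S₀ (p i)) = β),
        (nk G f (S₀ ∪ univ.image p) : ℝ) ≤
      2 * (((Fintype.piFinset C).filter fun p => (fun i => lb f S₀ (p i)) = β).card : ℝ) +
        2 ^ (S₀.card + Fintype.card ι) * R := by
    intro β hβ
    by_cases hemp : ((Fintype.piFinset C).filter fun p => (fun i => lb f S₀ (p i)) = β) = ∅
    · rw [hemp, Finset.sum_empty, Finset.card_empty]
      positivity
    obtain ⟨p₀, hp₀⟩ := Finset.nonempty_iff_ne_empty.2 hemp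
    rw [Finset.mem_filter] at hp₀
    obtain ⟨hp₀, hp₀β⟩ := hp₀
    set C' : ι → Finset ℕ := fun i => (C i).filter fun q => lb f S₀ q = β i with hC'
    have hpi : (Fintype.piFinset C).filter (fun p => (fun i => lb f S₀ (p i)) = β) =
        Fintype.piFinset C' := by
      ext p
      simp only [Finset.mem_filter, Fintype.mem_piFinset, hC']
      constructor
      · rintro ⟨h2, h3⟩ i
        exact ⟨h2 i, congrFun h3 i⟩
      · intro h2
        exact ⟨fun i => (h2 i).1, funext fun i => (h2 i).2⟩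
    set Q : (S₀ → ZMod 2) × (ι → ZMod 2) → (prs J1 → ZMod 2) → Prop := fun z α =>
      SolA (univ.filter fun u : S₀ => Hc G (u : ℕ))
      J1 (fun u v : S₀ => nr u v) (fun (u : S₀) l => (β l).1 u) (fun k (u : S₀) => (β k).2.1 u)
      (Pool.Agent.Y703.CQ.ext α) (fun u : S₀ => f u) (fun k => (β k).2.2) z with hQ
    have h2 := lam S₀ ι (univ.filter fun u : S₀ => Hc G (u : ℕ)) J1 hne
      (fun u v => nr u v) (fun u l => (β l).1 u) (fun k u => (β k).2.1 u) (fun u => f u)
      (fun k => (β k).2.2)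
      (by
        intro u hu k hk
        have h3 := congrFun hp₀β k
        rw [← h3]
        exact nr_symm (hS₀ u u.2).1 (Finset.mem_filter.1 hu).2.1 (hpr p₀ hp₀ k).1 (hpr p₀ hp₀ k).2)
      (by
        rintro w hw0 ⟨u, hu⟩
        have hu8 : Hc G (u : ℕ) := by
          by_contra h8
          exact hu (hw0 u fun hu' => h8 (Finset.mem_filter.1 hu').2)
        obtain ⟨k, hk, hk2⟩ := hβ w ⟨u, hu8, hu⟩
        refine ⟨k, hk, ?_⟩
        rw [Finset.sum_filter] at hk2
        intro h0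
        apply hk2
        refine Eq.trans ?_ h0
        refine Finset.sum_congr rfl fun v _ => ?_
        split_ifs with h8
        · rfl
        · rw [hw0 v fun hv => h8 (Finset.mem_filter.1 hv).2, zero_mul])
    have h3 := fun z => hEQ ι J1 C' X κ hκ
      (fun i => (Finset.card_le_card (Finset.filter_subset _ _)).trans (hCX i))
      (HB_sub hHB fun i q => lb f S₀ q = β i) (Q z)
    have h5 : (((Fintype.piFinset C').card : ℕ) : ℝ) = ∏ j, ((C' j).card : ℝ) := by
      rw [Fintype.card_piFinset]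
      push_cast
      rfl
    set P : ℝ := ∏ j, ((C' j).card : ℝ) with hP
    have hP0 : 0 ≤ P := Finset.prod_nonneg fun j _ => by positivity
    rw [hpi, h5]
    -- the sum over the pairs
    have h4 : ∀ p ∈ Fintype.piFinset C', (nk G f (S₀ ∪ univ.image p) : ℝ) =
        ∑ z : (S₀ → ZMod 2) × (ι → ZMod 2),
          if Q z (fun e => nr (p e.1.1) (p e.1.2)) then (1 : ℝ) else 0 := by
      intro p hp
      rw [← hpi, Finset.mem_filter] at hp
      obtain ⟨hp, hl⟩ := hp
      rw [nk_box f (hinj p hp) (hpr p hp) (hd p hp) (hJ p hp), Finset.sum_boole]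
      subst hl
      rfl
    rw [Finset.sum_congr rfl h4, Finset.sum_comm]
    have h6 : ∀ z : (S₀ → ZMod 2) × (ι → ZMod 2), ∑ p ∈ Fintype.piFinset C',
        (if Q z (fun e => nr (p e.1.1) (p e.1.2)) then (1 : ℝ) else 0) ≤
        ((univ.filter (Q z)).card : ℝ) / 2 ^ (prs J1).card * P + R := by
      intro z
      rw [Finset.sum_boole]
      have h7 := (abs_sub_le_iff.1 (h3 z)).1
      linarith
    refine (Finset.sum_le_sum fun z _ => h6 z).trans ?_
    rw [Finset.sum_add_distrib, Finset.sum_const, Finset.card_univ, hnz, nsmul_eq_mul,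
      ← Finset.sum_mul, ← Finset.sum_div]
    have h7 : (∑ z, ((univ.filter (Q z)).card : ℝ)) / 2 ^ (prs J1).card ≤ 2 := by
      rw [div_le_iff₀ (by positivity)]
      refine le_of_eq_of_le ?_ h2
      refine Finset.sum_congr (Finset.ext fun z => by simp only [Finset.mem_univ]) fun z _ =>
        congrArg (fun n : ℕ => (n : ℝ)) (congrArg Finset.card (Finset.ext fun α => ?_))
      simp only [Finset.mem_filter, Finset.mem_univ, true_and]
      rfl
    have h8 := mul_le_mul_of_nonneg_right h7 hP0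
    push_cast
    linarith
  -- sum over the labels
  set LL := univ.filter (fun β : ι → Lb S₀ => LN G S₀ J1 β) with hLL
  have hfib : ∀ T : (ι → ℕ) → ℝ,
      (∑ p ∈ (Fintype.piFinset C).filter (fun p => Nd G S₀ (univ.image p)), T p) =
      ∑ β ∈ LL, ∑ p ∈ (Fintype.piFinset C).filter (fun p => (fun i => lb f S₀ (p i)) = β), T p := by
    intro T
    rw [← Finset.sum_fiberwise_of_maps_to (g := fun (p : ι → ℕ) (i : ι) => lb f S₀ (p i))
      (t := LL) (by
        intro p hp
        rw [Finset.mem_filter] at hp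
        rw [hLL, Finset.mem_filter]
        exact ⟨Finset.mem_univ _, (nd_iff f (hJ p hp.1)).1 hp.2⟩)]
    refine Finset.sum_congr rfl fun β hβ => ?_
    rw [hLL, Finset.mem_filter] at hβ
    refine Finset.sum_congr ?_ fun _ _ => rfl
    ext p
    simp only [Finset.mem_filter]
    constructor
    · rintro ⟨⟨h3, h4⟩, h5⟩
      exact ⟨h3, h5⟩
    · rintro ⟨h3, h4⟩
      refine ⟨⟨h3, ?_⟩, h4⟩
      rw [nd_iff f (hJ p h3), h4]
      exact hβ.2
  have hf2 := hfib fun _ => 1
  simp only [Finset.sum_const, nsmul_eq_mul, mul_one] at hf2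
  rw [hfib, hf2, Finset.mul_sum]
  refine (Finset.sum_le_sum fun β hβ => h1 β (Finset.mem_filter.1 hβ).2).trans ?_
  rw [Finset.sum_add_distrib, Finset.sum_const, nsmul_eq_mul]
  have h5 : ((LL.card : ℕ) : ℝ) ≤ 2 ^ ((2 * S₀.card + 1) * Fintype.card ι) := by
    have h6 : LL.card ≤ Fintype.card (ι → Lb S₀) := Finset.card_le_univ _
    rw [Fintype.card_fun, Fintype.card_prod, Fintype.card_prod, Fintype.card_fun, ZMod.card,
      Fintype.card_coe, ← pow_succ, ← pow_add, ← pow_mul] at h6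
    have h7 : (S₀.card + (S₀.card + 1)) * Fintype.card ι = (2 * S₀.card + 1) * Fintype.card ι := by
      ring
    rw [h7] at h6
    exact_mod_cast h6
  have h6 : 0 ≤ (2 : ℝ) ^ (S₀.card + Fintype.card ι) * R := by positivity
  have h7 := mul_le_mul_of_nonneg_right h5 h6
  have h8 : (2 : ℝ) ^ ((2 * S₀.card + 1) * Fintype.card ι + (prs J1).card +
      (S₀.card + Fintype.card ι)) * (κ * ∏ j, (X j : ℝ)) =
      2 ^ ((2 * S₀.card + 1) * Fintype.card ι) * (2 ^ (S₀.card + Fintype.card ι) * R) := by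
    rw [hR, pow_add, pow_add]
    ring
  rw [h8]
  linarith

end Pool.Agent.U79.MO
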