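import Pool.Agent.U295.GD.KEY
import Pool.Agent.U79.MO.BOXM

/-!
# Project GDM (helper79): the mean number of elements of the kernel over the regular sets
(after `Pool.Agent.U958.GD.KEYK` of helper958)
-/

set_option autoImplicit false
set_option linter.unusedVariables false

open scoped Classical

namespace Pool.Agent.U79.MO

open Finset
open Pool.Agent.Y703.CX (sm la jj XX)
open Pool.Agent.Y703.CQ (nr sg prs HB S_EQ S_BIL)
open Pool.Agent.U115.GD
open Pool.Agent.U295.GD

theorem sum_eq_of_card {α β : Type} (A : Finset α) (B : Finset β) (F : α → ℕ) (F' : β → ℕ)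
    (h : ∀ n, (A.filter fun a => F a = n).card = (B.filter fun b => F' b = n).card) :
    ∑ a ∈ A, (F a : ℝ) = ∑ b ∈ B, (F' b : ℝ) := by
  set T := A.image F ∪ B.image F' with hT
  rw [← Finset.sum_fiberwise_of_maps_to (s := A) (t := T) (g := F)
      (fun a ha => Finset.mem_union_left _ (Finset.mem_image_of_mem _ ha)),
    ← Finset.sum_fiberwise_of_maps_to (s := B) (t := T) (g := F')
      (fun b hb => Finset.mem_union_right _ (Finset.mem_image_of_mem _ hb))]
  refine Finset.sum_congr rfl fun n _ => ?_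
  have h1 : ∑ a ∈ A.filter (fun a => F a = n), (F a : ℝ) = ((A.filter fun a => F a = n).card : ℝ) * n := by
    rw [Finset.sum_congr rfl (g := fun _ => (n : ℝ)) fun a ha => by
      rw [(Finset.mem_filter.1 ha).2], Finset.sum_const, nsmul_eq_mul]
  have h2 : ∑ b ∈ B.filter (fun b => F' b = n), (F' b : ℝ) =
      ((B.filter fun b => F' b = n).card : ℝ) * n := by
    rw [Finset.sum_congr rfl (g := fun _ => (n : ℝ)) fun a ha => by
      rw [(Finset.mem_filter.1 ha).2], Finset.sum_const, nsmul_eq_mul]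
  rw [h1, h2, h n]

theorem box_decM (hEQ : S_EQ) {G : Cfg} (f : ℕ → ZMod 2) (ι : Type) [Fintype ι]
    [inst : DecidableEq ι] (lo : LinearOrder ι) (J1 : Finset ι)
    (C : ι → Finset ℕ) (X : ι → ℕ) (κ : ℝ) (S₀ : Finset ℕ) (h1 : 0 ≤ κ)
    (h2 : ∀ i, (C i).card ≤ X i) (h3 : HB J1 C X κ) (h4 : ∀ u ∈ S₀, u.Prime ∧ u ≠ 2)
    (h5 : ∀ i, ∀ p ∈ C i, p.Prime ∧ p ≠ 2 ∧ p ∉ S₀ ∧ (i ∈ J1 ↔ Hc G p))
    (h6 : ∀ i l, i ≠ l → Disjoint (C i) (C l)) (h7 : ∃ i, i ∉ J1) :
    ∑ p ∈ (Fintype.piFinset C).filter (fun p => Nd G S₀ (univ.image p)),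
      (nk G f (S₀ ∪ univ.image p) : ℝ) ≤
    2 * (((Fintype.piFinset C).filter fun p => Nd G S₀ (univ.image p)).card : ℝ) +
    2 ^ ((2 * S₀.card + 1) * Fintype.card ι + (prs J1).card + (S₀.card + Fintype.card ι)) *
      (κ * ∏ j, (X j : ℝ)) := by
  have h := boxm hEQ G f ι J1 C X κ S₀ h1 h2 h3 h4 h5 h6 h7
  have e : inst = fun a b => lo.toDecidableEq a b := Subsingleton.elim _ _
  subst e
  exact h

theorem per_keyM (hEQ : S_EQ) (f : ℕ → ZMod 2) {G : Cfg}
    (hok : Ok G) {X z H k V : ℕ} (hH : 1 ≤ H)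
    {κ : ℝ} (hκ : 0 ≤ κ) {S₀ : Finset ℕ} {J : Finset (ℕ × ℕ)} (hk : KP G X z H k V S₀ J)
    (hHB : HB (univ.filter fun e : J => Hc G e.1.2) (fun i : J => CC G z H i)
      (fun i => XX H i.1.1) κ) :
    ∑ S ∈ (RR G X z H k V).filter (fun S => ky G z H S = (S₀, J) ∧ Nd G (sm z S) (la z S)),
        (nk G f S : ℝ) ≤
    2 * (((RR G X z H k V).filter fun S => ky G z H S = (S₀, J) ∧
        Nd G (sm z S) (la z S)).card : ℝ) +
      (3 ^ (4 * k ^ 2) * κ) * (X / ((∏ p ∈ S₀, p : ℕ) : ℝ)) := by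
  set J1 : Finset J := univ.filter fun e : J => Hc G e.1.2 with hJ1
  have c1 : J1.card = (J.filter fun e => Hc G e.2).card := by
    rw [hJ1, ← Finset.card_map (Function.Embedding.subtype (· ∈ J))]
    congr 1
    ext x
    simp only [Finset.mem_map, Finset.mem_filter, Finset.mem_univ, true_and,
      Function.Embedding.coe_subtype]
    constructor
    · rintro ⟨u, hu, rfl⟩
      exact ⟨u.2, hu⟩
    · rintro ⟨h, h'⟩
      exact ⟨⟨x, h⟩, h', rfl⟩
  have hinj : Function.Injective (fun i : J => i.1.1) := by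
    intro a b hab
    exact Subtype.ext (hk.inj (Finset.mem_coe.2 a.2) (Finset.mem_coe.2 b.2) hab)
  let lo : LinearOrder J := LinearOrder.lift' (fun i : J => i.1.1) hinj
  have hbox := box_decM (G := G) hEQ f J lo J1 (fun i => CC G z H i) (fun i => XX H i.1.1) κ S₀ hκ
    (fun i => by
      refine (Finset.card_filter_le _ _).trans ?_
      rw [Nat.card_Icc]
      omega)
    hHB (fun u hu => ⟨cl_prime (hk.cl u hu), cl_ne hok (hk.cl u hu)⟩)
    (fun i p hp => by
      obtain ⟨h3, h3', h4, h5⟩ := CC_facts hH hp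
      refine ⟨cl_prime h3, cl_ne hok h3, fun h => ?_, ?_⟩
      · have := hk.le p h
        omega
      · rw [hJ1, Finset.mem_filter, ← h5, hc_mod hok]
        simp)
    (fun i l hil => CC_disj hH i l hil)
    (by
      obtain ⟨e, he, h1⟩ := hk.ine
      exact ⟨⟨e, he⟩, fun h => h1 (Finset.mem_filter.1 h).2⟩)
  have e2 : ((Fintype.piFinset fun i : J => CC G z H i).filter fun p =>
      Nd G S₀ (univ.image p)).card = ((RR G X z H k V).filter fun S => ky G z H S = (S₀, J) ∧
        Nd G (sm z S) (la z S)).card := by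
    rw [← key_bij hok hH hk (fun S => Nd G (sm z S) (la z S))]
    congr 1
    refine Finset.filter_congr fun p hp => ?_
    rw [Fintype.mem_piFinset] at hp
    rw [sm_fill hH hk.le hp, la_fill hH hk.le hp]
  have e1 : ∑ p ∈ (Fintype.piFinset fun i : J => CC G z H i).filter
      (fun p => Nd G S₀ (univ.image p)), (nk G f (S₀ ∪ univ.image p) : ℝ) =
      ∑ S ∈ (RR G X z H k V).filter (fun S => ky G z H S = (S₀, J) ∧ Nd G (sm z S) (la z S)),
        (nk G f S : ℝ) := by
    refine sum_eq_of_card _ _ (fun p => nk G f (S₀ ∪ univ.image p)) (fun S => nk G f S) fun n => ?_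
    have h1 := key_bij hok hH hk (fun S => Nd G (sm z S) (la z S) ∧ nk G f S = n)
    have h2 : ((Fintype.piFinset fun i : J => CC G z H i).filter fun p =>
        Nd G S₀ (univ.image p)).filter (fun p => nk G f (S₀ ∪ univ.image p) = n) =
        (Fintype.piFinset fun i : J => CC G z H i).filter fun p =>
          Nd G (sm z (S₀ ∪ univ.image p)) (la z (S₀ ∪ univ.image p)) ∧
            nk G f (S₀ ∪ univ.image p) = n := by
      rw [Finset.filter_filter]
      refine Finset.filter_congr fun p hp => ?_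
      rw [Fintype.mem_piFinset] at hp
      rw [sm_fill hH hk.le hp, la_fill hH hk.le hp]
    rw [h2, h1, Finset.filter_filter]
    congr 1
    ext S
    simp only [Finset.mem_filter, and_assoc]
  rw [e1, e2] at hbox
  refine hbox.trans (add_le_add le_rfl ?_)
  have hcJ : Fintype.card J = J.card := Fintype.card_coe J
  have hcard := hk.card
  have hJK : J.card ≤ k := by omega
  have hSK : S₀.card ≤ k := by omega
  obtain ⟨m, hm⟩ : ∃ m : ℕ, m = (@prs J _ lo J1).card := ⟨_, rfl⟩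
  have hpr : m ≤ k * k := by
    rw [hm]
    refine (@prs_card J _ lo J1).trans ?_
    rw [hcJ]
    exact Nat.mul_le_mul hJK hJK
  rw [← hm]
  have h5 : (2 : ℝ) ^ ((2 * S₀.card + 1) * Fintype.card J + m + (S₀.card + Fintype.card J)) ≤
      3 ^ (4 * k ^ 2) := by
    rcases Nat.eq_zero_or_pos k with hk0 | hk0
    · have h6 : J.card = 0 := by omega
      have h6' : S₀.card = 0 := by omega
      have h7 : m = 0 := by
        rw [hk0] at hpr
        omega
      rw [hcJ, h6, h7, h6']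
      simp [hk0]
    · have hexp : (2 * S₀.card + 1) * Fintype.card J + m + (S₀.card + Fintype.card J) ≤
          5 * k ^ 2 := by
        rw [hcJ]
        have h6 : S₀.card * J.card ≤ k * k := Nat.mul_le_mul hSK hJK
        have h7 : k ≤ k * k := Nat.le_mul_of_pos_left k hk0
        calc (2 * S₀.card + 1) * J.card + m + (S₀.card + J.card) =
              2 * (S₀.card * J.card) + J.card + m + (S₀.card + J.card) := by ring
          _ ≤ 2 * (k * k) + k * k + k * k + (S₀.card + J.card) := by omega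
          _ ≤ 2 * (k * k) + k * k + k * k + k * k := by omega
          _ = 5 * k ^ 2 := by ring
      calc (2 : ℝ) ^ ((2 * S₀.card + 1) * Fintype.card J + m + (S₀.card + Fintype.card J)) ≤
            2 ^ (5 * k ^ 2) := pow_le_pow_right₀ (by norm_num) hexp
        _ = (32 : ℝ) ^ (k ^ 2) := by rw [pow_mul]; norm_num
        _ ≤ (81 : ℝ) ^ (k ^ 2) := by
            apply pow_le_pow_left₀ <;> norm_num
        _ = 3 ^ (4 * k ^ 2) := by rw [pow_mul]; norm_num
  have hN0 : (0 : ℝ) < ((∏ p ∈ S₀, p : ℕ) : ℝ) := by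
    exact_mod_cast Finset.prod_pos fun p hp => (cl_prime (hk.cl p hp)).pos
  have hprod : ∏ j : J, (XX H j.1.1 : ℝ) ≤ X / ((∏ p ∈ S₀, p : ℕ) : ℝ) := by
    have h5 : ∏ j : J, (XX H j.1.1 : ℝ) = ((∏ k ∈ J, XX H k.1 : ℕ) : ℝ) := by
      rw [← Finset.prod_coe_sort J (fun k => XX H k.1)]
      push_cast
      rfl
    rw [h5, le_div_iff₀ hN0, mul_comm]
    exact_mod_cast hk.prod
  calc (2 : ℝ) ^ ((2 * S₀.card + 1) * Fintype.card J + m + (S₀.card + Fintype.card J)) *
      (κ * ∏ j : J, (XX H j.1.1 : ℝ)) ≤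
      3 ^ (4 * k ^ 2) * (κ * (X / ((∏ p ∈ S₀, p : ℕ) : ℝ))) := by gcongr
    _ = _ := by ring

/-- **GDM-KEY.** -/
theorem keym (hB1 : S_BIL) (hEQ : S_EQ) : ∃ C : ℝ, 1 ≤ C ∧
    ∀ (G : Cfg) (f : ℕ → ZMod 2) (X z H k V N : ℕ) (κ : ℝ), Ok G → 1 ≤ X → 1 ≤ H → 1 ≤ z →
    0 ≤ κ → C ≤ κ ^ 12 * z → (H : ℝ) * Real.log X < N →
    ∑ S ∈ (RR G X z H k V).filter (fun S => Nd G (sm z S) (la z S)), (nk G f S : ℝ) ≤
      2 * (((RR G X z H k V).filter fun S => Nd G (sm z S) (la z S)).card : ℝ) +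
      (((G.Q : ℝ) + 1) * (N + 1)) ^ k * (3 ^ (4 * k ^ 2) * κ) * (X * (1 + Real.log X)) := by
  obtain ⟨C₁, hC₁, h1⟩ := hB1
  refine ⟨C₁, hC₁, ?_⟩
  intro G f X z H k V N κ hok hX hH hz hκ hκz hN
  set T := (RR G X z H k V).image (ky G z H) with hT
  set B : ℝ := 3 ^ (4 * k ^ 2) * κ with hB
  have hB0 : 0 ≤ B := by positivity
  have hfib : ∀ F : Finset ℕ → ℝ,
      ∑ S ∈ (RR G X z H k V).filter (fun S => Nd G (sm z S) (la z S)), F S =
      ∑ e ∈ T, ∑ S ∈ (RR G X z H k V).filter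
        (fun S => ky G z H S = e ∧ Nd G (sm z S) (la z S)), F S := by
    intro F
    rw [← Finset.sum_fiberwise_of_maps_to (g := ky G z H) (t := T) (by
      intro S hS
      rw [Finset.mem_filter] at hS
      exact Finset.mem_image_of_mem _ hS.1)]
    refine Finset.sum_congr rfl fun e _ => ?_
    refine Finset.sum_congr ?_ fun _ _ => rfl
    ext S
    simp only [Finset.mem_filter]
    tauto
  have hKP : ∀ e ∈ T, KP G X z H k V e.1 e.2 := by
    intro e he
    rw [hT, Finset.mem_image] at he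
    obtain ⟨S, hS, rfl⟩ := he
    obtain ⟨f1, f2, f3⟩ := rr_facts hS
    exact (rr_iff hok hH f1 (inj_ph f2)).1 hS
  have hf2 := hfib fun _ => 1
  simp only [Finset.sum_const, nsmul_eq_mul, mul_one] at hf2
  rw [hfib, hf2, Finset.mul_sum]
  have h3 : ∀ e ∈ T, ∑ S ∈ (RR G X z H k V).filter
        (fun S => ky G z H S = e ∧ Nd G (sm z S) (la z S)), (nk G f S : ℝ) ≤
      2 * (((RR G X z H k V).filter fun S => ky G z H S = e ∧
        Nd G (sm z S) (la z S)).card : ℝ) +
      B * (X / ((∏ p ∈ e.1, p : ℕ) : ℝ)) := by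
    intro e he
    obtain ⟨S₀, J⟩ := e
    have hk' := hKP _ he
    exact per_keyM hEQ f hok hH hκ hk' (hb_box hok h1 hH hz hκ hκz)
  refine (Finset.sum_le_sum h3).trans ?_
  rw [Finset.sum_add_distrib]
  refine add_le_add le_rfl ?_
  have hsub : T ⊆ (TT X) ×ˢ ((range N ×ˢ range G.Q).powerset.filter fun J => J.card ≤ k) := by
    intro e he
    have hk' := hKP e he
    rw [hT, Finset.mem_image] at he
    obtain ⟨S, hS, rfl⟩ := he
    obtain ⟨f1, f2, f3⟩ := rr_facts hS
    rw [Finset.mem_product, Finset.mem_filter, Finset.mem_powerset]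
    refine ⟨mem_TT (fun q hq => cl_prime (hk'.cl q hq)) ?_, ?_, ?_⟩
    · refine le_trans ?_ f3
      exact Nat.le_of_dvd (Finset.prod_pos fun p hp => (cl_prime (f1 p hp)).pos)
        (Finset.prod_dvd_prod_of_subset _ _ _ (Finset.filter_subset _ _))
    · intro e he
      unfold ky at he
      rw [Finset.mem_image] at he
      obtain ⟨q, hq, rfl⟩ := he
      have hqS := (Finset.mem_filter.1 hq).1
      have hq0 := (cl_prime (f1 q hqS)).pos
      have hqX : q ≤ X := by
        refine le_trans ?_ f3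
        exact Nat.le_of_dvd (Finset.prod_pos fun p hp => (cl_prime (f1 p hp)).pos)
          (Finset.dvd_prod_of_mem _ hqS)
      unfold ph
      rw [Finset.mem_product, Finset.mem_range, Finset.mem_range]
      refine ⟨?_, Nat.mod_lt _ hok.q0⟩
      have h3 : ((jj H q : ℕ) : ℝ) < N := by
        refine lt_of_le_of_lt (Nat.floor_le (mul_nonneg (Nat.cast_nonneg _)
          (Real.log_nonneg (by exact_mod_cast hq0)))) ?_
        refine lt_of_le_of_lt ?_ hN
        refine mul_le_mul_of_nonneg_left ?_ (Nat.cast_nonneg _)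
        exact Real.log_le_log (by exact_mod_cast hq0) (by exact_mod_cast hqX)
      exact_mod_cast h3
    · have := hk'.card
      omega
  refine (Finset.sum_le_sum_of_subset_of_nonneg hsub fun _ _ _ => by positivity).trans ?_
  rw [Finset.sum_product]
  simp only [Finset.sum_const, nsmul_eq_mul]
  rw [← Finset.mul_sum]
  have h4 : ((((range N ×ˢ range G.Q).powerset.filter fun J => J.card ≤ k).card : ℕ) : ℝ) ≤
      (((G.Q : ℝ) + 1) * (N + 1)) ^ k := by
    have h5 := card_sub (range N ×ˢ range G.Q) k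
    rw [Finset.card_product, Finset.card_range, Finset.card_range] at h5
    calc ((((range N ×ˢ range G.Q).powerset.filter fun J => J.card ≤ k).card : ℕ) : ℝ) ≤
          (((N * G.Q + 1) ^ k : ℕ) : ℝ) := by exact_mod_cast h5
      _ = ((N : ℝ) * G.Q + 1) ^ k := by push_cast; ring
      _ ≤ _ := by
        apply pow_le_pow_left₀ (by positivity)
        have h6 : (0 : ℝ) ≤ N := Nat.cast_nonneg _
        have h7 : (0 : ℝ) ≤ G.Q := Nat.cast_nonneg _
        nlinarith
  have h5 : ∑ S ∈ TT X, B * (X / ((∏ p ∈ S, p : ℕ) : ℝ)) ≤ B * (X * (1 + Real.log X)) := by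
    have h6 : ∀ S ∈ TT X, B * ((X : ℝ) / ((∏ p ∈ S, p : ℕ) : ℝ)) =
        B * X * (1 / ((∏ p ∈ S, p : ℕ) : ℝ)) := by
      intro S _
      ring
    rw [Finset.sum_congr rfl h6, ← Finset.mul_sum]
    have h7 := mul_le_mul_of_nonneg_left (harm_TT X) (mul_nonneg hB0 (Nat.cast_nonneg X))
    refine h7.trans (le_of_eq ?_)
    ring
  have h6 : 0 ≤ ∑ S ∈ TT X, B * ((X : ℝ) / ((∏ p ∈ S, p : ℕ) : ℝ)) :=
    Finset.sum_nonneg fun _ _ => by positivity
  rw [mul_assoc]
  gcongr

end Pool.Agent.U79.MO
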