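import Pool.Agent.U958.GD.ASYK
import Pool.Agent.U79.MO.KEYM

/-!
# Project GDM (helper79): all moments of the corank are bounded over the class
-/

set_option autoImplicit false

open scoped Classical
open Finset Filter

namespace Pool.Agent.U79.MO

open Pool.Agent.Y703.CX (sm la jj XX eL zz kk S_SIE eL_tendsto logX_eq rpow_eL HH NN ev_eL one_le_exp
  HH_ge HH_le HH_pos kk_ge kk_le X_pos one_add_log lin_le kap zz_ge zz_pos kap_nonneg kap_pow kap_le)
open Pool.Agent.Y703.CQ (nr S_EQ c2 S_BIL S_C2 Sml sml_of sml_add sml_rpow cmp)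
open Pool.Agent.U115.GD
open Pool.Agent.U798.GD (sml_many sml_cut sml_coll out_sub dl_pos)

/-! ### elementary -/

theorem pow_le_geom (m : ℕ) {r : ℝ} (hr : 1 < r) : ∃ C : ℝ, 1 ≤ C ∧ ∀ n : ℕ, (n : ℝ) ^ m ≤ C * r ^ n := by
  have h1 := tendsto_pow_const_div_const_pow_of_one_lt m hr
  obtain ⟨C, hC⟩ := h1.bddAbove_range
  refine ⟨max C 1, le_max_right _ _, fun n => ?_⟩
  have h2 : (n : ℝ) ^ m / r ^ n ≤ C := hC ⟨n, rfl⟩
  have h3 : (0 : ℝ) < r ^ n := pow_pos (by linarith) n
  rw [div_le_iff₀ h3] at h2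
  exact h2.trans (mul_le_mul_of_nonneg_right (le_max_left _ _) h3.le)

/-- the kernel has at most `2 ^ |S|` elements -/
theorem nk_le (G : Cfg) (f : ℕ → ZMod 2) (S : Finset ℕ) : nk G f S ≤ 2 ^ S.card := by
  unfold nk
  have h1 : Nat.card (S → ZMod 2) = 2 ^ S.card := by
    rw [Nat.card_eq_fintype_card, Fintype.card_fun, ZMod.card, Fintype.card_coe]
  rw [← h1]
  refine Nat.card_le_card_of_injective (fun x (p : S) => x.1 p) fun x y h => ?_
  refine Subtype.ext (funext fun p => ?_)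
  by_cases hp : p ∈ S
  · exact congrFun h ⟨p, hp⟩
  · rw [x.2.1 p fun h => hp h.1, y.2.1 p fun h => hp h.1]

theorem nk_pos (G : Cfg) (f : ℕ → ZMod 2) (S : Finset ℕ) : 1 ≤ nk G f S := by
  unfold nk
  have hf : Finite {x : ℕ → ZMod 2 // (∀ p, ¬ (p ∈ S ∧ Hc G p) → x p = 0) ∧ Sol G f S x} := by
    refine Finite.of_injective (β := S → ZMod 2) (fun x (p : S) => x.1 p) fun x y h => ?_
    refine Subtype.ext (funext fun p => ?_)
    by_cases hp : p ∈ S
    · exact congrFun h ⟨p, hp⟩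
    · rw [x.2.1 p fun h => hp h.1, y.2.1 p fun h => hp h.1]
  have hne : Nonempty {x : ℕ → ZMod 2 // (∀ p, ¬ (p ∈ S ∧ Hc G p) → x p = 0) ∧ Sol G f S x} := by
    refine ⟨⟨0, fun _ _ => rfl, fun p _ _ => ?_⟩⟩
    have : ∀ q, cu G (0 : ℕ → ZMod 2) q = 0 := by
      intro q
      unfold cu
      split_ifs <;> rfl
    simp [this]
  exact Nat.card_pos

/-- the corank -/
noncomputable def kd (G : Cfg) (f : ℕ → ZMod 2) (S : Finset ℕ) : ℕ := Nat.log 2 (nk G f S)

theorem kd_le (G : Cfg) (f : ℕ → ZMod 2) (S : Finset ℕ) : kd G f S ≤ S.card := by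
  unfold kd
  calc Nat.log 2 (nk G f S) ≤ Nat.log 2 (2 ^ S.card) := Nat.log_mono_right (nk_le G f S)
    _ = S.card := Nat.log_pow (by norm_num) _

theorem pow_kd_le (G : Cfg) (f : ℕ → ZMod 2) (S : Finset ℕ) : 2 ^ kd G f S ≤ nk G f S :=
  Nat.pow_log_le_self 2 (by have := nk_pos G f S; omega)

/-! ### the error terms -/

/-- the main error term -/
theorem sml_mainM {C : ℝ} (hC : 1 ≤ C) (Q : ℕ) {t : ℝ} (ht : t < 1) :
    Sml t fun X => (((Q : ℝ) + 1) * (NN X + 1)) ^ kk X *
    (3 ^ (4 * kk X ^ 2) * kap C X) * (X * (1 + Real.log X)) := by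
  apply sml_of (C := 4 * C) (a := 1) ht
  filter_upwards [ev_eL 7200, ev_eL (4 * ((Q : ℝ) + 1))] with X hX hXQ
  set l := eL X with hl
  have h0 : 0 < eL X := by linarith
  have h1 : 1 ≤ eL X := by linarith
  have hX0 : (0 : ℝ) ≤ X := Nat.cast_nonneg _
  have hQ0 : (0 : ℝ) ≤ Q := Nat.cast_nonneg _
  have hN : ((Q : ℝ) + 1) * ((NN X : ℝ) + 1) ≤ Real.exp (5 * l) := by
    have h2 : (NN X : ℝ) ≤ HH X * Real.log X + 1 := by
      unfold NN
      push_cast
      have := Nat.floor_le (a := (HH X : ℝ) * Real.log X)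
        (mul_nonneg (Nat.cast_nonneg _) (Real.log_natCast_nonneg X))
      linarith
    have h3 : (HH X : ℝ) * Real.log X ≤ 2 * Real.exp (4 * l) := by
      rw [logX_eq h0]
      calc (HH X : ℝ) * Real.exp (eL X) ≤ 2 * Real.exp (3 * eL X) * Real.exp (eL X) :=
            mul_le_mul_of_nonneg_right (HH_le h0) (Real.exp_pos _).le
        _ = 2 * Real.exp (4 * l) := by
            rw [mul_assoc, ← Real.exp_add]
            congr 2
            rw [hl]
            ring
    have h4 : 1 ≤ Real.exp (4 * l) := one_le_exp (by linarith)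
    have h5 : 4 * ((Q : ℝ) + 1) ≤ Real.exp l := by
      have := Real.add_one_le_exp l
      linarith
    have h6 : Real.exp (5 * l) = Real.exp (4 * l) * Real.exp l := by
      rw [← Real.exp_add]; congr 1; ring
    rw [h6]
    have h7 : (NN X : ℝ) + 1 ≤ 4 * Real.exp (4 * l) := by linarith
    calc ((Q : ℝ) + 1) * ((NN X : ℝ) + 1) ≤ ((Q : ℝ) + 1) * (4 * Real.exp (4 * l)) := by gcongr
      _ = Real.exp (4 * l) * (4 * ((Q : ℝ) + 1)) := by ring
      _ ≤ Real.exp (4 * l) * Real.exp l := by gcongr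
  have hkk := kk_le h1
  have hkk0 : (0 : ℝ) ≤ kk X := Nat.cast_nonneg _
  have hA : (((Q : ℝ) + 1) * ((NN X : ℝ) + 1)) ^ kk X ≤ Real.exp (55 * l ^ 2) := by
    calc (((Q : ℝ) + 1) * ((NN X : ℝ) + 1)) ^ kk X ≤ (Real.exp (5 * l)) ^ kk X := by gcongr
      _ = Real.exp (kk X * (5 * l)) := (Real.exp_nat_mul _ _).symm
      _ ≤ Real.exp (55 * l ^ 2) := by
          apply Real.exp_le_exp.2
          nlinarith
  have hB : (3 : ℝ) ^ (4 * kk X ^ 2) ≤ Real.exp (540 * l ^ 2) := by
    have e : (3 : ℝ) ^ (4 * kk X ^ 2) = Real.exp ((4 * (kk X : ℝ) ^ 2) * Real.log 3) := by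
      rw [mul_comm (4 * (kk X : ℝ) ^ 2) (Real.log 3), Real.exp_mul, Real.exp_log (by norm_num)]
      rw [← Real.rpow_natCast]
      congr 1
      push_cast
      ring
    rw [e]
    apply Real.exp_le_exp.2
    have h2 : Real.log 3 ≤ 1.1 := by
      have h3 : (3 : ℝ) ≤ Real.exp 1.1 := by
        have h4 : (2.7182818283 : ℝ) < Real.exp 1 := Real.exp_one_gt_d9
        have h5 : (1.105 : ℝ) ≤ Real.exp 0.1 := by
          have := Real.quadratic_le_exp_of_nonneg (x := 0.1) (by norm_num)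
          norm_num at this ⊢
          linarith
        have h6 : Real.exp 1.1 = Real.exp 1 * Real.exp 0.1 := by
          rw [← Real.exp_add]; norm_num
        rw [h6]
        nlinarith
      calc Real.log 3 ≤ Real.log (Real.exp 1.1) := Real.log_le_log (by norm_num) h3
        _ = 1.1 := Real.log_exp _
    have h3 : (kk X : ℝ) ^ 2 ≤ 121 * l ^ 2 := by nlinarith
    have h4 : 0 ≤ (kk X : ℝ) ^ 2 := sq_nonneg _
    nlinarith [sq_nonneg l]
  have hK := kap_le hC h1
  have hLg := one_add_log h0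
  have hmain : (((Q : ℝ) + 1) * ((NN X : ℝ) + 1)) ^ kk X * (3 ^ (4 * kk X ^ 2) * kap C X) *
      (X * (1 + Real.log X)) ≤ Real.exp (55 * l ^ 2) * (Real.exp (540 * l ^ 2) *
        (2 * C * Real.exp (-l ^ 3 / 12))) * (X * (2 * Real.exp l)) := by
    have := kap_nonneg hC X
    have : 0 ≤ 1 + Real.log X := by
      have := Real.log_natCast_nonneg X
      linarith
    gcongr
  refine hmain.trans ?_
  have e : Real.exp (55 * l ^ 2) * (Real.exp (540 * l ^ 2) *
        (2 * C * Real.exp (-l ^ 3 / 12))) * (X * (2 * Real.exp l)) =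
      4 * C * (X * Real.exp (55 * l ^ 2 + 540 * l ^ 2 + -l ^ 3 / 12 + l)) := by
    rw [Real.exp_add, Real.exp_add, Real.exp_add]
    ring
  rw [e]
  have h9 : 55 * l ^ 2 + 540 * l ^ 2 + -l ^ 3 / 12 + l ≤ -1 * l := by
    have h10 : 7200 * l ^ 2 ≤ l ^ 3 := by
      have : l ^ 3 = l * l ^ 2 := by ring
      rw [this]
      exact mul_le_mul_of_nonneg_right hX (sq_nonneg l)
    nlinarith
  have h11 := Real.exp_le_exp.2 h9
  have hC0 : (0 : ℝ) ≤ 4 * C := by linarith
  gcongr

/-- a power of the number of primes -/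
theorem ev_kk (m : ℕ) {η : ℝ} (hη : 0 < η) : ∀ᶠ X : ℕ in atTop, (kk X : ℝ) ^ m ≤ Real.exp (η * eL X) := by
  have h1 := (isLittleO_pow_exp_pos_mul_atTop m hη).def (c := 1 / 11 ^ m) (by positivity)
  filter_upwards [eL_tendsto.eventually h1, ev_eL 1] with X h2 h3
  have h4 := kk_le h3
  rw [Real.norm_eq_abs, Real.norm_eq_abs, abs_of_nonneg (by positivity), abs_of_nonneg (by positivity),
    div_mul_eq_mul_div, one_mul, le_div_iff₀ (by positivity)] at h2
  calc (kk X : ℝ) ^ m ≤ (11 * eL X) ^ m := by gcongr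
    _ = eL X ^ m * 11 ^ m := by rw [mul_pow]; ring
    _ ≤ _ := h2

theorem sml_kk {t t' : ℝ} (h : t < t') (m : ℕ) {E : ℕ → ℝ} (hE : Sml t' E) :
    Sml t fun X => (kk X : ℝ) ^ m * E X := by
  intro δ hδ
  filter_upwards [hE δ hδ, ev_kk m (sub_pos.2 h)] with X h1 h2
  have e1 : Real.exp (-t * eL X) = Real.exp ((t' - t) * eL X) * Real.exp (-t' * eL X) := by
    rw [← Real.exp_add]; congr 1; ring
  calc (kk X : ℝ) ^ m * E X ≤ (kk X : ℝ) ^ m * (δ * (X * Real.exp (-t' * eL X))) := by gcongr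
    _ ≤ Real.exp ((t' - t) * eL X) * (δ * (X * Real.exp (-t' * eL X))) := by gcongr
    _ = _ := by rw [e1]; ring

theorem mem_SS_card {G : Cfg} {X : ℕ} {S : Finset ℕ} (h : S ∈ SS G X) : S.card ≤ X + 1 := by
  have h1 := Finset.mem_powerset.1 (Finset.mem_filter.1 h).1
  have := Finset.card_le_card h1
  rwa [Finset.card_range] at this

/-- the sets with many primes, with a polynomial weight -/
theorem sml_manyM {G : Cfg} (hO : Ok G) {t : ℝ} (ht : t < 1) (h : CntP) (m : ℕ) :
    Sml t fun X => ∑ S ∈ (SS G X).filter (fun S => kk X < S.card), (S.card : ℝ) ^ m := by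
  obtain ⟨C, hC1, hC⟩ := pow_le_geom m (show (1 : ℝ) < 3 / 2 by norm_num)
  apply sml_of (C := 16 * C) (a := 1) ht
  filter_upwards [ev_eL 1] with X hX
  have h0 : 0 < eL X := by linarith
  have hX0 : (0 : ℝ) ≤ X := Nat.cast_nonneg _
  set W : ℝ := X * (1 + Real.log X) with hW
  have hW0 : 0 ≤ W := by
    have := Real.log_natCast_nonneg X
    positivity
  have h1 : ∑ S ∈ (SS G X).filter (fun S => kk X < S.card), (S.card : ℝ) ^ m =
      ∑ n ∈ Finset.Ioc (kk X) (X + 1), ∑ S ∈ (SS G X).filter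
        (fun S => kk X < S.card) |>.filter (fun S => S.card = n), (S.card : ℝ) ^ m := by
    rw [Finset.sum_fiberwise_of_maps_to]
    intro S hS
    rw [Finset.mem_filter] at hS
    exact Finset.mem_Ioc.2 ⟨hS.2, mem_SS_card hS.1⟩
  have h2 : ∀ n ∈ Finset.Ioc (kk X) (X + 1), ∑ S ∈ (SS G X).filter
        (fun S => kk X < S.card) |>.filter (fun S => S.card = n), (S.card : ℝ) ^ m ≤
        2 * C * W * (3 / 4 : ℝ) ^ n := by
    intro n hn
    obtain ⟨hn1, -⟩ := Finset.mem_Ioc.1 hn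
    have e1 : ∑ S ∈ ((SS G X).filter (fun S => kk X < S.card)).filter (fun S => S.card = n),
        (S.card : ℝ) ^ m =
        ((((SS G X).filter (fun S => kk X < S.card)).filter fun S => S.card = n).card : ℝ) *
          (n : ℝ) ^ m := by
      rw [Finset.sum_congr rfl (g := fun _ => (n : ℝ) ^ m) fun S hS => by
        rw [(Finset.mem_filter.1 hS).2], Finset.sum_const, nsmul_eq_mul]
    have e2 : ((((SS G X).filter (fun S => kk X < S.card)).filter fun S => S.card = n).card : ℝ) ≤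
        (((SS G X).filter fun S => n - 1 < S.card).card : ℝ) := by
      have : ((SS G X).filter (fun S => kk X < S.card)).filter (fun S => S.card = n) ⊆
          (SS G X).filter fun S => n - 1 < S.card := by
        intro S hS
        rw [Finset.mem_filter, Finset.mem_filter] at hS
        rw [Finset.mem_filter]
        exact ⟨hS.1.1, by omega⟩
      exact_mod_cast Finset.card_le_card this
    have e3 := h.many G X (n - 1) hO (X_pos h0)
    have e4 : (2 : ℝ) ^ n = 2 * 2 ^ (n - 1) := by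
      rw [← pow_succ']
      congr 1
      omega
    have e5 : (((SS G X).filter fun S => n - 1 < S.card).card : ℝ) ≤ 2 * W * (1 / 2) ^ n := by
      have e6 : (((SS G X).filter fun S => n - 1 < S.card).card : ℝ) * 2 ^ n ≤ 2 * W := by
        rw [e4]
        linarith
      rw [one_div, inv_pow, ← div_eq_mul_inv, le_div_iff₀ (by positivity)]
      exact e6
    rw [e1]
    calc ((((SS G X).filter (fun S => kk X < S.card)).filter fun S => S.card = n).card : ℝ) *
          (n : ℝ) ^ m ≤ (2 * W * (1 / 2) ^ n) * (C * (3 / 2 : ℝ) ^ n) := by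
          gcongr
          · exact e2.trans e5
          · exact hC n
      _ = 2 * C * W * ((1 / 2 : ℝ) ^ n * (3 / 2) ^ n) := by ring
      _ = 2 * C * W * (3 / 4 : ℝ) ^ n := by rw [← mul_pow]; norm_num
  have h3 : ∑ n ∈ Finset.Ioc (kk X) (X + 1), (3 / 4 : ℝ) ^ n ≤ 4 * (3 / 4 : ℝ) ^ kk X := by
    have hs : Summable fun n : ℕ => (3 / 4 : ℝ) ^ n :=
      summable_geometric_of_lt_one (by norm_num) (by norm_num)
    have e1 : ∑ n ∈ Finset.Ioc (kk X) (X + 1), (3 / 4 : ℝ) ^ n ≤
        ∑ i ∈ Finset.range (X + 2), (3 / 4 : ℝ) ^ (kk X + i) := by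
      rw [← Finset.sum_image (s := Finset.range (X + 2)) (g := fun i => kk X + i)
        (f := fun n => (3 / 4 : ℝ) ^ n) (fun a _ b _ hab => by
          have : kk X + a = kk X + b := hab
          omega)]
      refine Finset.sum_le_sum_of_subset_of_nonneg ?_ fun _ _ _ => by positivity
      intro n hn
      obtain ⟨hn1, hn2⟩ := Finset.mem_Ioc.1 hn
      rw [Finset.mem_image]
      exact ⟨n - kk X, Finset.mem_range.2 (by omega), by omega⟩
    refine e1.trans ?_
    simp only [pow_add]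
    rw [← Finset.mul_sum, mul_comm]
    refine mul_le_mul_of_nonneg_right ?_ (by positivity)
    refine (hs.sum_le_tsum _ fun _ _ => by positivity).trans (le_of_eq ?_)
    rw [tsum_geometric_of_lt_one (by norm_num) (by norm_num)]
    norm_num
  have h4 : (3 / 4 : ℝ) ^ kk X ≤ Real.exp (-2 * eL X) := by
    have e : (3 / 4 : ℝ) ^ kk X = Real.exp (kk X * Real.log (3 / 4)) := by
      rw [mul_comm, Real.exp_mul, Real.exp_log (by norm_num), Real.rpow_natCast]
    rw [e]
    apply Real.exp_le_exp.2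
    have h3 := kk_ge X
    have h4 : Real.log (3 / 4) ≤ -1 / 4 := by
      have := Real.log_le_sub_one_of_pos (show (0 : ℝ) < 3 / 4 by norm_num)
      linarith
    have h5 : 0 ≤ (kk X : ℝ) := Nat.cast_nonneg _
    nlinarith
  have h5 : W ≤ X * (2 * Real.exp (eL X)) := mul_le_mul_of_nonneg_left (one_add_log h0) hX0
  rw [h1]
  refine (Finset.sum_le_sum h2).trans ?_
  rw [← Finset.mul_sum]
  have hC0 : (0 : ℝ) ≤ C := by linarith
  calc 2 * C * W * ∑ n ∈ Finset.Ioc (kk X) (X + 1), (3 / 4 : ℝ) ^ n ≤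
        2 * C * (X * (2 * Real.exp (eL X))) * (4 * Real.exp (-2 * eL X)) := by
        gcongr
        exact h3.trans (by linarith)
    _ = 16 * C * (X * (Real.exp (eL X) * Real.exp (-2 * eL X))) := by ring
    _ = 16 * C * (X * Real.exp (-1 * eL X)) := by
        rw [← Real.exp_add]
        congr 3
        ring

/-- **All moments of the corank are bounded over the class** -/
def S_MOM : Prop := ∀ (G : Cfg) (f : ℕ → ZMod 2) (m : ℕ), Ok G → ∃ C : ℝ, 0 ≤ C ∧ ∀ᶠ X : ℕ in atTop,
  ∑ S ∈ SS G X, (kd G f S : ℝ) ^ m ≤ C * ((SS G X).card : ℝ)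

theorem asym (h1 : S_BIL) (h3 : S_EQ) (hC : CntP) (hS : S_SIE) (hH : S_HAL) (hB : S_BAD)
    (hF : S_FEW) (hM : S_MER) (hCh : S_CHE) (hD : S_DA) (hLo : S_LOW) : S_MOM := by
  intro G f m hO
  obtain ⟨C, hC1, hkey⟩ := keym h1 h3
  obtain ⟨Cm, hCm1, hCm⟩ := pow_le_geom m (show (1 : ℝ) < 2 by norm_num)
  obtain ⟨dB, CB, XB, hdB, hbad⟩ := hB hS hH hM hD G hO
  obtain ⟨dF, CF, XF, hdF, hfew⟩ := hF hS hM hD G 0 hO
  obtain ⟨c, X₀, hc, hlow⟩ := hLo hM hCh G hO
  have hdp := dl_pos hO hD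
  obtain ⟨η, hη0, hηB, hηF, hηD⟩ : ∃ η : ℝ, 0 < η ∧ η < dB ∧ η < dF ∧ η < dl G := by
    refine ⟨min dB (min dF (dl G)) / 2, ?_, ?_, ?_, ?_⟩
    · have : 0 < min dB (min dF (dl G)) := lt_min hdB (lt_min hdF hdp)
      linarith
    · have h1 : 0 < min dB (min dF (dl G)) := lt_min hdB (lt_min hdF hdp)
      have h2 : min dB (min dF (dl G)) ≤ dB := min_le_left _ _
      linarith
    · have h1 : 0 < min dB (min dF (dl G)) := lt_min hdB (lt_min hdF hdp)
      have h2 : min dB (min dF (dl G)) ≤ dF := (min_le_right _ _).trans (min_le_left _ _)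
      linarith
    · have h1 : 0 < min dB (min dF (dl G)) := lt_min hdB (lt_min hdF hdp)
      have h2 : min dB (min dF (dl G)) ≤ dl G := (min_le_right _ _).trans (min_le_right _ _)
      linarith
  have ht' : 1 - dl G + η < 1 := by linarith
  have s1 := sml_manyM hO (t := 1 - dl G) (by linarith) hC m
  have s2 := sml_cut hO (t := 1 - dl G + η) ht' hC
  have s3 := sml_coll hO (t := 1 - dl G + η) ht' hC
  have s4 := sml_rpow (t := 1 - dl G + η) (by linarith) hfew
  have s5 := sml_rpow (t := 1 - dl G + η) (by linarith) hbad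
  have s6 := sml_mainM hC1 G.Q (t := 1 - dl G) (by linarith)
  have s7 := sml_kk (t := 1 - dl G) (by linarith) m (sml_add (sml_add (sml_add s2 s3) s4) s5)
  refine ⟨Cm * (2 + 1 / c) + 2 / c, by positivity, ?_⟩
  filter_upwards [s1 1 one_pos, s6 1 one_pos, s7 1 one_pos, ev_eL 1, eventually_ge_atTop X₀] with
    X g1 g6 g7 hl hX0
  have hl0 : 0 < eL X := by linarith
  have hlo := hlow X hX0
  have e00 : (-1 + dl G : ℝ) = -(1 - dl G) := by ring
  rw [e00, rpow_eL hl0] at hlo
  have hXp := X_pos hl0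
  have hN : (HH X : ℝ) * Real.log X < NN X := by
    unfold NN
    push_cast
    exact Nat.lt_floor_add_one _
  have hmain := hkey G f X (zz X) (HH X) (kk X) 0 (NN X) (kap C X) hO hXp (HH_pos hl0) (zz_pos hl)
    (kap_nonneg hC1 X) (kap_pow hC1 hl) hN
  set T := (RR G X (zz X) (HH X) (kk X) 0).filter fun S => Nd G (sm (zz X) S) (la (zz X) S) with hT
  have hTS : T ⊆ SS G X := (filter_subset _ _).trans (filter_subset _ _)
  have hTS' : (T.card : ℝ) ≤ ((SS G X).card : ℝ) := by exact_mod_cast card_le_card hTS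
  -- the regular part
  have hreg : ∑ S ∈ T, (kd G f S : ℝ) ^ m ≤ Cm * ∑ S ∈ T, (nk G f S : ℝ) := by
    rw [Finset.mul_sum]
    refine Finset.sum_le_sum fun S _ => (hCm _).trans ?_
    refine mul_le_mul_of_nonneg_left ?_ (by linarith)
    exact_mod_cast pow_kd_le G f S
  -- the other part
  have hsplit : ∑ S ∈ SS G X, (kd G f S : ℝ) ^ m = ∑ S ∈ T, (kd G f S : ℝ) ^ m +
      (∑ S ∈ (SS G X \ T).filter (fun S => kk X < S.card), (kd G f S : ℝ) ^ m +
      ∑ S ∈ (SS G X \ T).filter (fun S => ¬ kk X < S.card), (kd G f S : ℝ) ^ m) := by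
    rw [Finset.sum_filter_add_sum_filter_not, add_comm, Finset.sum_sdiff hTS]
  have hmany : ∑ S ∈ (SS G X \ T).filter (fun S => kk X < S.card), (kd G f S : ℝ) ^ m ≤
      ∑ S ∈ (SS G X).filter (fun S => kk X < S.card), (S.card : ℝ) ^ m := by
    calc _ ≤ ∑ S ∈ (SS G X \ T).filter (fun S => kk X < S.card), (S.card : ℝ) ^ m := by
          refine Finset.sum_le_sum fun S _ => ?_
          gcongr
          exact kd_le G f S
      _ ≤ _ := by
          refine Finset.sum_le_sum_of_subset_of_nonneg ?_ fun _ _ _ => by positivity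
          exact Finset.filter_subset_filter _ Finset.sdiff_subset
  have hfewer : ∑ S ∈ (SS G X \ T).filter (fun S => ¬ kk X < S.card), (kd G f S : ℝ) ^ m ≤
      (kk X : ℝ) ^ m * (((SS G X \ T).filter (fun S => ¬ kk X < S.card)).card : ℝ) := by
    calc _ ≤ ∑ S ∈ (SS G X \ T).filter (fun S => ¬ kk X < S.card), (kk X : ℝ) ^ m := by
          refine Finset.sum_le_sum fun S hS => ?_
          gcongr
          have h1 := (Finset.mem_filter.1 hS).2
          have h2 := kd_le G f S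
          omega
      _ = _ := by rw [Finset.sum_const, nsmul_eq_mul, mul_comm]
  have hout : (((SS G X \ T).filter (fun S => ¬ kk X < S.card)).card : ℝ) ≤
      (((((SS G X).filter fun S => S.card ≤ kk X ∧
        X < (∏ p ∈ sm (zz X) S, p) * ∏ p ∈ la (zz X) S, XX (HH X) (jj (HH X) p)).card : ℝ) +
      (((SS G X).filter fun S => ¬ Set.InjOn (jj (HH X)) (la (zz X) S : Set ℕ)).card : ℝ)) +
      (((SS G X).filter fun S => ((la (zz X) S).filter fun p => Hc G p).card ≤
        2 * (sm (zz X) S).card + 0 ∨ ∀ p ∈ la (zz X) S, Hc G p).card : ℝ)) +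
      (((SS G X).filter fun S => S.card ≤ kk X ∧ ¬ Nd G (sm (zz X) S) (la (zz X) S)).card : ℝ) := by
    have hsub : (SS G X \ T).filter (fun S => ¬ kk X < S.card) ⊆
        ((((SS G X).filter fun S => S.card ≤ kk X ∧
        X < (∏ p ∈ sm (zz X) S, p) * ∏ p ∈ la (zz X) S, XX (HH X) (jj (HH X) p)) ∪
      ((SS G X).filter fun S => ¬ Set.InjOn (jj (HH X)) (la (zz X) S : Set ℕ))) ∪
      ((SS G X).filter fun S => ((la (zz X) S).filter fun p => Hc G p).card ≤
        2 * (sm (zz X) S).card + 0 ∨ ∀ p ∈ la (zz X) S, Hc G p)) ∪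
      ((SS G X).filter fun S => S.card ≤ kk X ∧ ¬ Nd G (sm (zz X) S) (la (zz X) S)) := by
      intro S hS
      obtain ⟨hS1, hS2⟩ := Finset.mem_filter.1 hS
      have g := out_sub G X (zz X) (HH X) (kk X) 0 hS1
      rw [Finset.mem_union, Finset.mem_union, Finset.mem_union, Finset.mem_union] at g
      rw [Finset.mem_union, Finset.mem_union, Finset.mem_union]
      rcases g with (((g | g) | g) | g) | g
      · exact absurd (Finset.mem_filter.1 g).2 hS2
      · exact Or.inl (Or.inl (Or.inl g))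
      · exact Or.inl (Or.inl (Or.inr g))
      · exact Or.inl (Or.inr g)
      · exact Or.inr g
    have g := card_le_card hsub
    have g2 := (g.trans (card_union_le _ _)).trans (Nat.add_le_add_right ((card_union_le _ _).trans
      (Nat.add_le_add_right (card_union_le _ _) _)) _)
    exact_mod_cast g2
  have hkk0 : (0 : ℝ) ≤ (kk X : ℝ) ^ m := by positivity
  have hother := mul_le_mul_of_nonneg_left hout hkk0
  have hXe : X * Real.exp (-(1 - dl G) * eL X) ≤ 1 / c * ((SS G X).card : ℝ) := by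
    rw [one_div, ← div_eq_inv_mul, le_div_iff₀ hc]
    linarith
  rw [one_mul] at g1 g6 g7
  have hCm0 : 0 ≤ Cm := by linarith
  have hreg2 : ∑ S ∈ T, (nk G f S : ℝ) ≤ 2 * ((SS G X).card : ℝ) + 1 / c * ((SS G X).card : ℝ) := by
    refine hmain.trans ?_
    have := g6.trans hXe
    linarith
  have hreg3 := mul_le_mul_of_nonneg_left hreg2 hCm0
  have e : (Cm * (2 + 1 / c) + 2 / c) * ((SS G X).card : ℝ) =
      Cm * (2 * ((SS G X).card : ℝ) + 1 / c * ((SS G X).card : ℝ)) +
      (1 / c * ((SS G X).card : ℝ) + 1 / c * ((SS G X).card : ℝ)) := by ring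
  rw [hsplit, e]
  have a1 := hmany.trans (g1.trans hXe)
  have a2 := (hfewer.trans hother).trans (g7.trans hXe)
  linarith

end Pool.Agent.U79.MO
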