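import Pool.Agent.U79.MO.FIN
import Pool.Agent.U115.GE.Conv2

/-!
# Project GDM (helper79): the moments of the ranks in the families of quadratic twists
-/

set_option autoImplicit false

open scoped Classical
open Finset Filter

namespace Pool.Agent.U79.MO

open Pool.Agent.U115.GD (ck)
open Pool.Agent.U115.GE (Class cork)
open Pool.Agent.TH841.NF.D (rk Sha)
open Pool.Agent.U79.TF (sr)

/-! ### functions of polynomial growth -/

theorem mean_fiber (A : Finset ℕ) (g : ℕ → ℕ) (φ : ℕ → ℝ) (K : ℕ) :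
    ∑ k ∈ range K, φ k * (((A.filter fun D => g D = k).card : ℝ) / (A.card : ℝ)) =
      (∑ D ∈ A.filter (fun D => g D < K), φ (g D)) / (A.card : ℝ) := by
  rw [← Finset.sum_fiberwise_of_maps_to (s := A.filter fun D => g D < K) (t := range K) (g := g)
    (fun D hD => Finset.mem_range.2 (Finset.mem_filter.1 hD).2), Finset.sum_div]
  refine Finset.sum_congr rfl fun k hk => ?_
  have e : (A.filter fun D => g D < K).filter (fun D => g D = k) = A.filter fun D => g D = k := by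
    rw [Finset.filter_filter]
    refine Finset.filter_congr fun D _ => ⟨fun h => h.2, fun h => ⟨?_, h⟩⟩
    rw [h]
    exact Finset.mem_range.1 hk
  rw [e, Finset.sum_congr rfl (g := fun _ => φ k) fun D hD => by
    rw [(Finset.mem_filter.1 hD).2], Finset.sum_const, nsmul_eq_mul]
  ring

theorem mean_phi (A : Finset ℕ) (g : ℕ → ℕ) (φ : ℕ → ℝ) {B : ℝ} {m : ℕ}
    (hφ : ∀ k : ℕ, 1 ≤ k → |φ k| ≤ B * (k : ℝ) ^ m) (hB : 0 ≤ B) {K : ℕ} (hK : 0 < K) :
    |(mean A fun D => φ (g D)) -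
      ∑ k ∈ range K, φ k * (((A.filter fun D => g D = k).card : ℝ) / (A.card : ℝ))| ≤
      B * (mean A fun D => (g D : ℝ) ^ (m + 1)) / K := by
  have hK' : (0 : ℝ) < K := by exact_mod_cast hK
  rw [mean_fiber]
  unfold mean
  rw [← sub_div, ← Finset.sum_filter_add_sum_filter_not A (fun D => g D < K), add_sub_cancel_left,
    abs_div, abs_of_nonneg (Nat.cast_nonneg A.card : (0 : ℝ) ≤ (A.card : ℝ)), ← mul_div_assoc,
    div_div, mul_comm (A.card : ℝ), ← div_div]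
  refine div_le_div_of_nonneg_right ?_ (Nat.cast_nonneg _)
  refine (Finset.abs_sum_le_sum_abs _ _).trans ?_
  rw [Finset.mul_sum, Finset.sum_div]
  calc ∑ D ∈ A.filter (fun D => ¬ g D < K), |φ (g D)| ≤
      ∑ D ∈ A.filter (fun D => ¬ g D < K), B * (g D : ℝ) ^ (m + 1) / K := by
        refine Finset.sum_le_sum fun D hD => ?_
        have h1 := not_lt.1 (Finset.mem_filter.1 hD).2
        have h2 : (K : ℝ) ≤ g D := by exact_mod_cast h1
        refine (hφ (g D) (by omega)).trans ?_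
        rw [le_div_iff₀ hK', pow_succ, ← mul_assoc]
        exact mul_le_mul_of_nonneg_left h2 (by positivity)
    _ ≤ _ := Finset.sum_le_sum_of_subset_of_nonneg (Finset.filter_subset _ _)
        fun _ _ _ => by positivity

/-- the mean of a function of polynomial growth -/
theorem phi_tendsto {A : ℕ → Finset ℕ} {g : ℕ → ℕ} {c : ℕ → ℝ}
    (hlaw : ∀ k, Tendsto (fun X => (((A X).filter fun D => g D = k).card : ℝ) / ((A X).card : ℝ))
      atTop (nhds (c k)))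
    (hmom : ∀ m : ℕ, ∃ C : ℝ, 0 ≤ C ∧ ∀ᶠ X in atTop, (mean (A X) fun D => (g D : ℝ) ^ m) ≤ C)
    {φ : ℕ → ℝ} {B : ℝ} {m : ℕ} (hφ : ∀ k : ℕ, 1 ≤ k → |φ k| ≤ B * (k : ℝ) ^ m) :
    (Summable fun k : ℕ => φ k * c k) ∧
      Tendsto (fun X => mean (A X) fun D => φ (g D)) atTop (nhds (∑' k : ℕ, φ k * c k)) := by
  have hB : 0 ≤ B := by
    have h := (abs_nonneg _).trans (hφ 1 le_rfl)
    simpa using h
  have hc : ∀ k, 0 ≤ c k := fun k => ge_of_tendsto' (hlaw k) fun X => by positivity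
  have hs0 := (mean_tendsto hlaw hmom m).1
  have hsum : Summable fun k : ℕ => φ k * c k := by
    rw [← summable_nat_add_iff 1]
    refine Summable.of_norm_bounded ((((summable_nat_add_iff 1).2 hs0)).mul_left B) fun k => ?_
    rw [Real.norm_eq_abs, abs_mul, abs_of_nonneg (hc _), ← mul_assoc]
    exact mul_le_mul_of_nonneg_right (hφ (k + 1) (by omega)) (hc _)
  refine ⟨hsum, ?_⟩
  have hlim : ∀ K : ℕ, Tendsto (fun X => ∑ k ∈ range K, φ k *
      ((((A X).filter fun D => g D = k).card : ℝ) / ((A X).card : ℝ))) atTop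
      (nhds (∑ k ∈ range K, φ k * c k)) := fun K =>
    tendsto_finsetSum _ fun k _ => (hlaw k).const_mul _
  obtain ⟨C', hC0', hC'⟩ := hmom (m + 1)
  have hS := hsum.hasSum.tendsto_sum_nat
  rw [Metric.tendsto_nhds]
  intro ε hε
  obtain ⟨K, hK0, hK1, hK2⟩ : ∃ K : ℕ, 0 < K ∧
      dist (∑ k ∈ range K, φ k * c k) (∑' k : ℕ, φ k * c k) < ε / 4 ∧
      B * C' / K < ε / 4 := by
    have h1 := (Metric.tendsto_nhds.1 hS) (ε / 4) (by linarith)
    have h2 : ∀ᶠ K : ℕ in atTop, B * C' / (K : ℝ) < ε / 4 := by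
      have h3 : Tendsto (fun K : ℕ => B * C' / (K : ℝ)) atTop (nhds 0) :=
        tendsto_const_nhds.div_atTop tendsto_natCast_atTop_atTop
      exact h3.eventually (gt_mem_nhds (by linarith))
    obtain ⟨K, hK⟩ := ((h1.and h2).and (eventually_gt_atTop 0)).exists
    exact ⟨K, hK.2, hK.1.1, hK.1.2⟩
  have h1 := (Metric.tendsto_nhds.1 (hlim K)) (ε / 4) (by linarith)
  filter_upwards [h1, hC'] with X hX hX'
  have g1 := mean_phi (A X) g φ hφ hB hK0
  have g3 : B * (mean (A X) fun D => (g D : ℝ) ^ (m + 1)) / K ≤ B * C' / K :=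
    div_le_div_of_nonneg_right (mul_le_mul_of_nonneg_left hX' hB) (Nat.cast_nonneg _)
  have g4 := g1.trans g3
  rw [abs_le] at g4
  rw [Real.dist_eq, abs_lt] at hX hK1 ⊢
  constructor
  · linarith [hX.1, hX.2, hK1.1, hK1.2, g4.1, g4.2]
  · linarith [hX.1, hX.2, hK1.1, hK1.2, g4.1, g4.2]

/-! ### the class of the twists -/

/-- the class up to `X` -/
noncomputable def CX (a b : ℤ) (X : ℕ) : Finset ℕ := (Icc 1 X).filter fun D => Class a b D

variable {a b m M : ℤ}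

/-- **the mean over the class for `M` of a function of polynomial growth of the corank of the
twist by `m`** -/
theorem phi_class (nb : ¬ IsSquare b) (nc : ¬ IsSquare (a ^ 2 - 4 * b)) (hM : M ≠ 0) (h : m ∣ M)
    {φ : ℕ → ℝ} {B : ℝ} {n : ℕ} (hφ : ∀ k : ℕ, 1 ≤ k → |φ k| ≤ B * (k : ℝ) ^ n) :
    (Summable fun k : ℕ => φ k * ck k) ∧
    Tendsto (fun X : ℕ => mean (CX (a * M) (b * M ^ 2) X) fun D =>
      φ (cork (a * m) (b * m ^ 2) D)) atTop (nhds (∑' k : ℕ, φ k * ck k)) := by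
  have hb : b ≠ 0 := by
    rintro rfl
    exact nb ⟨0, by norm_num⟩
  have hc : a ^ 2 - 4 * b ≠ 0 := by
    intro h
    exact nc ⟨0, by rw [h]; norm_num⟩
  obtain ⟨g1, g2⟩ := Pool.Agent.U79.TF.gc_ne hb hc hM
  have nb' : ¬ IsSquare (b * M ^ 2) := fun h => nb (Pool.Agent.U79.TF.sq_cancel hM h)
  have nc' : ¬ IsSquare ((a * M) ^ 2 - 4 * (b * M ^ 2)) := by
    intro h
    refine nc (Pool.Agent.U79.TF.sq_cancel hM ?_)
    have e : (a ^ 2 - 4 * b) * M ^ 2 = (a * M) ^ 2 - 4 * (b * M ^ 2) := by ring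
    rw [e]
    exact h
  obtain ⟨hok, -, -, hcl⟩ := Pool.Agent.U643.GE.t_CFG (a * M) (b * M ^ 2) g1 g2 nb' nc'
  set G := Pool.Agent.U115.GE.cfg (a * M) (b * M ^ 2) with hG
  set f := Pool.Agent.U115.GE.thetaG (a * m) (b * m ^ 2) with hf
  have hA : ∀ X, CX (a * M) (b * M ^ 2) X = AX G X := fun X =>
    Finset.filter_congr fun D _ => hcl D
  have key : ∀ X, ∀ D ∈ CX (a * M) (b * M ^ 2) X,
      kd G f D.primeFactors = cork (a * m) (b * m ^ 2) D := by
    intro X D hD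
    obtain ⟨-, hres, -, -⟩ := Pool.Agent.U643.GE.t_CFG (a * M) (b * M ^ 2) g1 g2 nb' nc'
    have hD' := (Finset.mem_filter.1 hD).2
    refine (kd_iff G f _ _).1 ?_
    rw [Pool.Agent.U115.GE.gdK_matF, Pool.Agent.U79.TF.cork_matF, Pool.Agent.U79.TF.spl_eq h hD',
      Pool.Agent.U79.TF.ine_eq h hD']
    have e1 : (D.primeFactors.filter fun p => Pool.Agent.U115.GD.Hc G p) =
        Pool.Agent.U115.GE.spl (a * M) (b * M ^ 2) D :=
      Finset.filter_congr fun p _ => (hres p).symm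
    have e2 : (D.primeFactors.filter fun p => ¬ Pool.Agent.U115.GD.Hc G p) =
        Pool.Agent.U115.GE.ine (a * M) (b * M ^ 2) D :=
      Finset.filter_congr fun p _ => not_congr (hres p).symm
    rw [e1, e2]
  obtain ⟨h1, h2⟩ := phi_tendsto (A := AX G) (g := fun D => kd G f D.primeFactors)
    (fun k => law_AX G f hok k) (fun n => mom_AX G f hok n) hφ
  refine ⟨h1, h2.congr fun X => ?_⟩
  unfold mean
  rw [hA X]
  congr 1
  refine Finset.sum_congr rfl fun D hD => ?_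
  show φ (kd G f D.primeFactors) = φ (cork (a * m) (b * m ^ 2) D)
  rw [key X D (by rw [hA X]; exact hD)]

/-! ### the constant -/

/-- the expected corank -/
noncomputable def mu : ℝ := ∑' k : ℕ, (k : ℝ) * ck k

theorem ck_succ (k : ℕ) : ck (k + 1) = ck k / ((2 : ℝ) ^ (k + 1) - 1) := by
  unfold ck
  rw [Finset.prod_range_succ, div_div]

theorem sum_tail : (∑' k : ℕ, ((k + 7 : ℕ) : ℝ) * ck (k + 7)) ≤ 0.00002 ∧
    0 ≤ ∑' k : ℕ, ((k + 7 : ℕ) : ℝ) * ck (k + 7) := by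
  have h7 : ∀ k : ℕ, ((k + 7 : ℕ) : ℝ) * ck (k + 7) ≤ 7 * (1 / 2 : ℝ) ^ 21 * (1 / 2 : ℝ) ^ k := by
    intro k
    have h1 := (Pool.Agent.U79.TF.ck_le (k + 7)).1
    have h2 : 21 + 2 * k ≤ ∑ i ∈ range (k + 7), i := by
      rw [add_comm k 7, Finset.sum_range_add]
      have h3 : ∑ i ∈ range 7, i = 21 := by decide
      rw [h3]
      have h4 : 2 * k ≤ ∑ i ∈ range k, (7 + i) := by
        calc 2 * k = ∑ i ∈ range k, 2 := by simp [mul_comm]
          _ ≤ _ := Finset.sum_le_sum fun i _ => by omega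
      omega
    have h3 : ck (k + 7) ≤ (1 / 2 : ℝ) ^ (21 + 2 * k) :=
      h1.trans (pow_le_pow_of_le_one (by norm_num) (by norm_num) h2)
    have h4 : ((k + 7 : ℕ) : ℝ) ≤ 7 * 2 ^ k := by
      have : k + 7 ≤ 7 * 2 ^ k := by
        have := Nat.lt_two_pow_self (n := k)
        omega
      exact_mod_cast this
    calc ((k + 7 : ℕ) : ℝ) * ck (k + 7) ≤ (7 * 2 ^ k) * (1 / 2 : ℝ) ^ (21 + 2 * k) := by
          have := (Pool.Agent.U79.TF.ck_le (k + 7)).2
          gcongr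
      _ = 7 * (1 / 2 : ℝ) ^ 21 * ((2 : ℝ) ^ k * ((1 / 2 : ℝ) ^ k * (1 / 2 : ℝ) ^ k)) := by
          rw [pow_add, mul_comm 2 k, pow_mul]
          ring
      _ = 7 * (1 / 2 : ℝ) ^ 21 * (1 / 2 : ℝ) ^ k := by
          rw [← mul_assoc ((2 : ℝ) ^ k), ← mul_pow]
          norm_num
  have h0 : ∀ k : ℕ, 0 ≤ ((k + 7 : ℕ) : ℝ) * ck (k + 7) := fun k =>
    mul_nonneg (Nat.cast_nonneg _) (Pool.Agent.U79.TF.ck_le _).2
  have hg : Summable fun k : ℕ => 7 * (1 / 2 : ℝ) ^ 21 * (1 / 2 : ℝ) ^ k :=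
    (summable_geometric_of_lt_one (by norm_num) (by norm_num)).mul_left _
  refine ⟨?_, tsum_nonneg h0⟩
  have h1 := (Summable.of_nonneg_of_le h0 h7 hg).tsum_le_tsum h7 hg
  refine h1.trans ?_
  rw [tsum_mul_left, tsum_geometric_of_lt_one (by norm_num) (by norm_num)]
  norm_num

theorem mu_bounds (hs : Summable fun k : ℕ => (k : ℝ) * ck k) : 0.7644 < mu ∧ mu < 0.7647 := by
  obtain ⟨-, -, -, k1, k2⟩ := Pool.Agent.Y948.CQ.t_C2
  have k1' : (0.4194 : ℝ) < Pool.Agent.Y703.CQ.c2 := k1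
  have k2' : Pool.Agent.Y703.CQ.c2 < 0.4195 := k2
  have e0 : ck 0 = Pool.Agent.Y703.CQ.c2 := by
    unfold ck
    rw [Finset.range_zero, Finset.prod_empty, div_one]
  obtain ⟨t1, t2⟩ := sum_tail
  have e : mu = ∑ k ∈ range 7, (k : ℝ) * ck k + ∑' k : ℕ, ((k + 7 : ℕ) : ℝ) * ck (k + 7) :=
    (hs.sum_add_tsum_nat_add 7).symm
  have c1 := ck_succ 0
  have c2' := ck_succ 1
  have c3 := ck_succ 2
  have c4 := ck_succ 3
  have c5 := ck_succ 4
  have c6 := ck_succ 5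
  norm_num at c1 c2' c3 c4 c5 c6
  rw [e]
  clear e hs
  generalize ∑' k : ℕ, ((k + 7 : ℕ) : ℝ) * ck (k + 7) = T at *
  simp only [Finset.sum_range_succ, Finset.sum_range_zero]
  rw [c6, c5, c4, c3, c2', c1, e0]
  push_cast
  constructor
  · linarith
  · linarith

/-! ### ranks -/

/-- the dimension of `Ш[2]` -/
noncomputable def ds (W : WeierstrassCurve ℚ) : ℕ := Nat.log 2 (Nat.card {x : Sha W // 2 • x = 0})

/-- `k ≤ rank + dim Ш[2] ≤ s + 2 k` -/
theorem two_sided (hb : b ≠ 0) (hc : a ^ 2 - 4 * b ≠ 0) (nb : ¬ IsSquare b)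
    (nc : ¬ IsSquare (a ^ 2 - 4 * b)) {D : ℕ} (h : Class a b D) :
    Finite {x : Sha (Pool.Agent.U115.GE.twE a b D) // 2 • x = 0} ∧
    cork a b D ≤ rk (Pool.Agent.U115.GE.twE a b D) + ds (Pool.Agent.U115.GE.twE a b D) ∧
    rk (Pool.Agent.U115.GE.twE a b D) + ds (Pool.Agent.U115.GE.twE a b D) ≤
      sr a b + 2 * cork a b D := by
  have hH := Pool.Agent.U115.GE.class_hg hb hc h
  have hk := Pool.Agent.U115.GE.class_kap hb hc h
  have hD := Pool.Agent.U115.GE.prod_eq (a := a) (b := b) h.1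
  obtain ⟨h1, h2⟩ := hH.bound Pool.Agent.U739.GE.t_GOOD Pool.Agent.U796.GE.t_BND hD
  have h3 := hH.conv2 Pool.Agent.U739.GE.t_GOOD Pool.Agent.U796.GE.t_BND nb nc hD
  have eS : Pool.Agent.U115.GE.sel a b * Pool.Agent.U115.GE.sel (-2 * a) (a ^ 2 - 4 * b) =
      Pool.Agent.U79.TF.sel2 a b := rfl
  rw [hk, eS, Pool.Agent.U79.TF.sel2_pow hb hc] at h2
  rw [hk] at h3
  unfold ds
  set E := Pool.Agent.U115.GE.twE a b D
  set N := Nat.card {x : Sha E // 2 • x = 0} with hN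
  have h4 : 0 < N := Nat.card_pos_iff.2 ⟨⟨⟨0, smul_zero 2⟩⟩, h1⟩
  have hle : 2 ^ Nat.log 2 N ≤ N := Nat.pow_log_le_self 2 (by omega)
  have hlt : N < 2 ^ (Nat.log 2 N + 1) := Nat.lt_pow_succ_log_self (by norm_num) N
  refine ⟨h1, ?_, ?_⟩
  · have h5 : 2 ^ cork a b D < 2 ^ (rk E + (Nat.log 2 N + 1)) := by
      rw [pow_add]
      exact h3.trans_lt (Nat.mul_lt_mul_of_pos_left hlt (by positivity))
    have h6 := (Nat.pow_lt_pow_iff_right (by norm_num : 1 < 2)).1 h5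
    omega
  · have h5 : 2 ^ (rk E + Nat.log 2 N + 2) ≤ 2 ^ (cork a b D * 2 + (sr a b + 2)) := by
      calc 2 ^ (rk E + Nat.log 2 N + 2) = 4 * 2 ^ rk E * 2 ^ Nat.log 2 N := by
            rw [pow_add, pow_add]; ring
        _ ≤ 4 * 2 ^ rk E * N := Nat.mul_le_mul_left _ hle
        _ ≤ (2 ^ cork a b D) ^ 2 * 2 ^ (sr a b + 2) := h2
        _ = _ := by rw [← pow_mul, ← pow_add]
    have h6 := (Nat.pow_le_pow_iff_right (by norm_num : 1 < 2)).1 h5
    omega

end Pool.Agent.U79.MO
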