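import Pool.Agent.U79.MO.ASYM
import Pool.Agent.U79.TF.MQ

/-!
# Project GDM (helper79): the moments of the corank converge
-/

set_option autoImplicit false

open scoped Classical
open Finset Filter

namespace Pool.Agent.U79.MO

open Pool.Agent.U115.GD

theorem t_MOM : S_MOM := asym Pool.Agent.Y710.CQ.t_BIL Pool.Agent.Y356.CQ.t_EQ
    Pool.Agent.U643.GD.t_CNT
    Pool.Agent.Y488.CX.t_SIE Pool.Agent.U158.GD.t_HAL Pool.Agent.U674.GD.t_BAD
    Pool.Agent.U998.GD.t_FEW Pool.Agent.U2.GD.t_MER Pool.Agent.U2.GD.t_CHE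
    Pool.Agent.U234.GD.t_DA Pool.Agent.U2.GD.t_LOW

/-! ### the abstract argument -/

/-- the mean of a function over a finite set -/
noncomputable def mean (A : Finset ℕ) (F : ℕ → ℝ) : ℝ := (∑ D ∈ A, F D) / (A.card : ℝ)

theorem mean_mono {A : Finset ℕ} {F F' : ℕ → ℝ} (h : ∀ D ∈ A, F D ≤ F' D) : mean A F ≤ mean A F' :=
  div_le_div_of_nonneg_right (Finset.sum_le_sum h) (Nat.cast_nonneg _)

theorem mean_ge (A : Finset ℕ) (g : ℕ → ℕ) (m K : ℕ) :
    ∑ k ∈ range K, (k : ℝ) ^ m * (((A.filter fun D => g D = k).card : ℝ) / (A.card : ℝ)) ≤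
      mean A fun D => (g D : ℝ) ^ m := by
  unfold mean
  have h1 : ∑ k ∈ range K, (k : ℝ) ^ m * (((A.filter fun D => g D = k).card : ℝ) / (A.card : ℝ)) =
      (∑ D ∈ A.filter (fun D => g D < K), (g D : ℝ) ^ m) / (A.card : ℝ) := by
    rw [← Finset.sum_fiberwise_of_maps_to (s := A.filter fun D => g D < K) (t := range K) (g := g)
      (fun D hD => Finset.mem_range.2 (Finset.mem_filter.1 hD).2), Finset.sum_div]
    refine Finset.sum_congr rfl fun k hk => ?_
    have e : (A.filter fun D => g D < K).filter (fun D => g D = k) = A.filter fun D => g D = k := by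
      rw [Finset.filter_filter]
      refine Finset.filter_congr fun D _ => ⟨fun h => h.2, fun h => ⟨?_, h⟩⟩
      rw [h]
      exact Finset.mem_range.1 hk
    rw [e, Finset.sum_congr rfl (g := fun _ => (k : ℝ) ^ m) fun D hD => by
      rw [(Finset.mem_filter.1 hD).2], Finset.sum_const, nsmul_eq_mul]
    ring
  rw [h1]
  refine div_le_div_of_nonneg_right ?_ (Nat.cast_nonneg _)
  exact Finset.sum_le_sum_of_subset_of_nonneg (Finset.filter_subset _ _) fun _ _ _ => by positivity

theorem mean_le (A : Finset ℕ) (g : ℕ → ℕ) (m : ℕ) {K : ℕ} (hK : 0 < K) :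
    (mean A fun D => (g D : ℝ) ^ m) ≤
    ∑ k ∈ range K, (k : ℝ) ^ m * (((A.filter fun D => g D = k).card : ℝ) / (A.card : ℝ)) +
      (mean A fun D => (g D : ℝ) ^ (m + 1)) / K := by
  have hK' : (0 : ℝ) < K := by exact_mod_cast hK
  unfold mean
  have h1 : ∑ k ∈ range K, (k : ℝ) ^ m * (((A.filter fun D => g D = k).card : ℝ) / (A.card : ℝ)) =
      (∑ D ∈ A.filter (fun D => g D < K), (g D : ℝ) ^ m) / (A.card : ℝ) := by
    rw [← Finset.sum_fiberwise_of_maps_to (s := A.filter fun D => g D < K) (t := range K) (g := g)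
      (fun D hD => Finset.mem_range.2 (Finset.mem_filter.1 hD).2), Finset.sum_div]
    refine Finset.sum_congr rfl fun k hk => ?_
    have e : (A.filter fun D => g D < K).filter (fun D => g D = k) = A.filter fun D => g D = k := by
      rw [Finset.filter_filter]
      refine Finset.filter_congr fun D _ => ⟨fun h => h.2, fun h => ⟨?_, h⟩⟩
      rw [h]
      exact Finset.mem_range.1 hk
    rw [e, Finset.sum_congr rfl (g := fun _ => (k : ℝ) ^ m) fun D hD => by
      rw [(Finset.mem_filter.1 hD).2], Finset.sum_const, nsmul_eq_mul]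
    ring
  rw [h1, div_div, mul_comm (A.card : ℝ), ← div_div, ← add_div]
  refine div_le_div_of_nonneg_right ?_ (Nat.cast_nonneg _)
  rw [← Finset.sum_filter_add_sum_filter_not A (fun D => g D < K)]
  refine add_le_add_right ?_ _
  rw [Finset.sum_div]
  calc ∑ D ∈ A.filter (fun D => ¬ g D < K), (g D : ℝ) ^ m ≤
      ∑ D ∈ A.filter (fun D => ¬ g D < K), (g D : ℝ) ^ (m + 1) / K := by
        refine Finset.sum_le_sum fun D hD => ?_
        have h2 : (K : ℝ) ≤ g D := by exact_mod_cast not_lt.1 (Finset.mem_filter.1 hD).2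
        rw [le_div_iff₀ hK', pow_succ]
        exact mul_le_mul_of_nonneg_left h2 (by positivity)
    _ ≤ _ := Finset.sum_le_sum_of_subset_of_nonneg (Finset.filter_subset _ _)
        fun _ _ _ => by positivity

/-- convergence of the moments from the law and the bounded moments -/
theorem mean_tendsto {A : ℕ → Finset ℕ} {g : ℕ → ℕ} {c : ℕ → ℝ}
    (hlaw : ∀ k, Tendsto (fun X => (((A X).filter fun D => g D = k).card : ℝ) / ((A X).card : ℝ))
      atTop (nhds (c k)))
    (hmom : ∀ m : ℕ, ∃ C : ℝ, 0 ≤ C ∧ ∀ᶠ X in atTop, (mean (A X) fun D => (g D : ℝ) ^ m) ≤ C)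
    (m : ℕ) : (Summable fun k : ℕ => (k : ℝ) ^ m * c k) ∧
      Tendsto (fun X => mean (A X) fun D => (g D : ℝ) ^ m) atTop
        (nhds (∑' k : ℕ, (k : ℝ) ^ m * c k)) := by
  have hc : ∀ k, 0 ≤ c k := fun k => ge_of_tendsto' (hlaw k) fun X => by positivity
  have hlim : ∀ K : ℕ, Tendsto (fun X => ∑ k ∈ range K, (k : ℝ) ^ m *
      ((((A X).filter fun D => g D = k).card : ℝ) / ((A X).card : ℝ))) atTop
      (nhds (∑ k ∈ range K, (k : ℝ) ^ m * c k)) := fun K =>
    tendsto_finsetSum _ fun k _ => (hlaw k).const_mul _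
  obtain ⟨C, hC0, hC⟩ := hmom m
  obtain ⟨C', hC0', hC'⟩ := hmom (m + 1)
  have hsum : Summable fun k : ℕ => (k : ℝ) ^ m * c k := by
    refine summable_of_sum_range_le (c := C) (fun k => mul_nonneg (by positivity) (hc k)) fun K => ?_
    refine le_of_tendsto (hlim K) ?_
    filter_upwards [hC] with X hX
    exact (mean_ge (A X) g m K).trans hX
  refine ⟨hsum, ?_⟩
  have hS := hsum.hasSum.tendsto_sum_nat
  rw [Metric.tendsto_nhds]
  intro ε hε
  obtain ⟨K, hK0, hK1, hK2⟩ : ∃ K : ℕ, 0 < K ∧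
      dist (∑ k ∈ range K, (k : ℝ) ^ m * c k) (∑' k : ℕ, (k : ℝ) ^ m * c k) < ε / 4 ∧
      C' / K < ε / 4 := by
    have h1 := (Metric.tendsto_nhds.1 hS) (ε / 4) (by linarith)
    have h2 : ∀ᶠ K : ℕ in atTop, C' / (K : ℝ) < ε / 4 := by
      have h3 : Tendsto (fun K : ℕ => C' / (K : ℝ)) atTop (nhds 0) :=
        tendsto_const_nhds.div_atTop tendsto_natCast_atTop_atTop
      exact h3.eventually (gt_mem_nhds (by linarith))
    obtain ⟨K, hK⟩ := ((h1.and h2).and (eventually_gt_atTop 0)).exists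
    exact ⟨K, hK.2, hK.1.1, hK.1.2⟩
  have h1 := (Metric.tendsto_nhds.1 (hlim K)) (ε / 4) (by linarith)
  filter_upwards [h1, hC'] with X hX hX'
  have g1 := mean_ge (A X) g m K
  have g2 := mean_le (A X) g m hK0
  have g3 : (mean (A X) fun D => (g D : ℝ) ^ (m + 1)) / K ≤ C' / K :=
    div_le_div_of_nonneg_right hX' (Nat.cast_nonneg _)
  rw [Real.dist_eq, abs_lt] at hX hK1 ⊢
  constructor
  · linarith [hX.1, hX.2, hK1.1, hK1.2]
  · linarith [hX.1, hX.2, hK1.1, hK1.2]

/-! ### in terms of the numbers `D` -/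

/-- the class of the configuration up to `X` -/
noncomputable def AX (G : Cfg) (X : ℕ) : Finset ℕ :=
  (Icc 1 X).filter fun D => Squarefree D ∧ Cl G D.primeFactors

theorem kd_iff (G : Cfg) (f : ℕ → ZMod 2) (k : ℕ) (S : Finset ℕ) : GdK G f k S ↔ kd G f S = k := by
  have h0 : GdK G f ((S.filter fun p => Hc G p).card -
      (Pool.Agent.U115.XP.matF f (S.filter fun p => ¬ Hc G p) (S.filter fun p => Hc G p)).rank) S :=
    (Pool.Agent.U115.GE.gdK_matF G f _ S).2 rfl
  have h1 : ∀ j, GdK G f j S → kd G f S = j := fun j hj => by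
    unfold kd
    rw [(gdK_nk G f j S).1 hj, Nat.log_pow (by norm_num)]
  refine ⟨h1 k, fun h => ?_⟩
  rw [← h, h1 _ h0]
  exact h0

theorem AX_card (G : Cfg) (X : ℕ) : (AX G X).card = (SS G X).card := by
  have e2 := Pool.Agent.U643.GD.card_eq G X (fun _ => True)
  rw [Finset.filter_true] at e2
  simp only [and_true] at e2
  exact e2

theorem mom_AX (G : Cfg) (f : ℕ → ZMod 2) (hO : Ok G) (m : ℕ) : ∃ C : ℝ, 0 ≤ C ∧
    ∀ᶠ X : ℕ in atTop, (mean (AX G X) fun D => (kd G f D.primeFactors : ℝ) ^ m) ≤ C := by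
  obtain ⟨C, hC, h⟩ := t_MOM G f m hO
  refine ⟨C, hC, ?_⟩
  filter_upwards [h] with X hX
  have e1 : ∑ D ∈ AX G X, (kd G f D.primeFactors : ℝ) ^ m = ∑ S ∈ SS G X, (kd G f S : ℝ) ^ m := by
    have h1 := sum_eq_of_card (AX G X) (SS G X) (fun D => kd G f D.primeFactors ^ m)
      (fun S => kd G f S ^ m) (fun n => by
        have h5 := Pool.Agent.U643.GD.card_eq G X fun S => kd G f S ^ m = n
        refine Eq.trans ?_ (h5.trans (congrArg Finset.card
          (Finset.ext fun S => by simp only [Finset.mem_filter])))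
        unfold AX
        refine congrArg Finset.card (Finset.ext fun D => ?_)
        simp only [Finset.mem_filter, and_assoc])
    push_cast at h1
    exact h1
  unfold mean
  rw [e1, AX_card]
  rcases Nat.eq_zero_or_pos (SS G X).card with h0 | h0
  · rw [h0]
    simpa using hC
  · rw [div_le_iff₀ (by exact_mod_cast h0)]
    exact hX

theorem law_AX (G : Cfg) (f : ℕ → ZMod 2) (hO : Ok G) (k : ℕ) : Tendsto (fun X : ℕ =>
    (((AX G X).filter fun D => kd G f D.primeFactors = k).card : ℝ) / ((AX G X).card : ℝ)) atTop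
    (nhds (ck k)) := by
  refine (t_DENK G f k hO).congr fun X => ?_
  have e : (Icc 1 X).filter (fun D => Squarefree D ∧ Cl G D.primeFactors ∧ GdK G f k D.primeFactors) =
      (AX G X).filter fun D => kd G f D.primeFactors = k := by
    unfold AX
    rw [Finset.filter_filter]
    refine Finset.filter_congr fun D _ => ?_
    rw [kd_iff, and_assoc]
  rw [e]
  rfl

/-- **all moments of the corank converge to those of the limit law** -/
theorem moments_AX (G : Cfg) (f : ℕ → ZMod 2) (hO : Ok G) (m : ℕ) :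
    (Summable fun k : ℕ => (k : ℝ) ^ m * ck k) ∧
      Tendsto (fun X => mean (AX G X) fun D => (kd G f D.primeFactors : ℝ) ^ m) atTop
        (nhds (∑' k : ℕ, (k : ℝ) ^ m * ck k)) :=
  mean_tendsto (law_AX G f hO) (mom_AX G f hO) m

end Pool.Agent.U79.MO
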